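import Pool.Agent.KS6_21.Q.Kron

/-!
The normal form of pencils of symmetric bilinear forms.
-/

set_option autoImplicit false
set_option linter.unusedVariables false
set_option linter.unusedSectionVars false

universe u v

open Module

namespace Pool.Agent.KS6_21.Q

variable {k : Type u} [Field k]

/-- The neighbour in the path of a Jordan block. -/
def js (m : ℕ) (i : Fin m) : Fin m :=
  if 2 * (i : ℕ) + 1 ≥ m then ⟨m - 1 - i, by have := i.2; omega⟩
  else ⟨m - 2 - i, by have := i.2; omega⟩

/-- The position in the path of a Jordan block. -/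
def jr (m : ℕ) (i : Fin m) : ℕ :=
  if 2 * (i : ℕ) + 1 ≥ m then 2 * (m - 1 - i) else 2 * i + 1

lemma js_jr (m : ℕ) (i : Fin m) : js m i = i ∨ jr m i < jr m (js m i) := by
  have hi := i.2
  by_cases h : 2 * (i : ℕ) + 1 ≥ m
  · by_cases h1 : m - 1 - (i : ℕ) = i
    · left
      rw [js, if_pos h]
      exact Fin.ext h1
    · right
      have h2 : ((js m i : Fin m) : ℕ) = m - 1 - i := by
        rw [js, if_pos h]
      rw [jr, jr, if_pos h, h2, if_neg (by omega)]
      omega
  · by_cases h1 : m - 2 - (i : ℕ) = i
    · left
      rw [js, if_neg h]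
      exact Fin.ext h1
    · right
      have h2 : ((js m i : Fin m) : ℕ) = m - 2 - i := by
        rw [js, if_neg h]
      rw [jr, jr, if_neg h, h2, if_pos (by omega)]
      omega

lemma js_edge (m : ℕ) (i j : Fin m) (h : (i : ℕ) + j + 1 = m ∨ (i : ℕ) + j + 2 = m) :
    j = js m i ∨ i = js m j := by
  have hi := i.2
  have hj := j.2
  rcases h with h | h
  · by_cases h1 : 2 * (i : ℕ) + 1 ≥ m
    · left
      rw [js, if_pos h1]
      apply Fin.ext
      show (j : ℕ) = m - 1 - i
      omega
    · right
      rw [js, if_pos (by omega)]
      apply Fin.ext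
      show (i : ℕ) = m - 1 - j
      omega
  · by_cases h1 : 2 * (i : ℕ) + 1 ≥ m
    · right
      rw [js, if_neg (by omega)]
      apply Fin.ext
      show (i : ℕ) = m - 2 - j
      omega
    · left
      rw [js, if_neg h1]
      apply Fin.ext
      show (j : ℕ) = m - 2 - i
      omega

/-- The neighbour in the path of a Kronecker block. -/
def ks (d : ℕ) : Fin (d + 2) ⊕ Fin (d + 1) → Fin (d + 2) ⊕ Fin (d + 1)
  | Sum.inl i => if h : (i : ℕ) < d + 1 then Sum.inr ⟨i, h⟩ else Sum.inl i
  | Sum.inr j => Sum.inl ⟨(j : ℕ) + 1, by have := j.2; omega⟩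

/-- The position in the path of a Kronecker block. -/
def kr (d : ℕ) : Fin (d + 2) ⊕ Fin (d + 1) → ℕ
  | Sum.inl i => 2 * i
  | Sum.inr j => 2 * j + 1

lemma ks_kr (d : ℕ) (i : Fin (d + 2) ⊕ Fin (d + 1)) : ks d i = i ∨ kr d i < kr d (ks d i) := by
  rcases i with i | j
  · by_cases h : (i : ℕ) < d + 1
    · right
      simp only [ks, dif_pos h, kr]
      omega
    · left
      simp only [ks, dif_neg h]
  · right
    simp only [ks, kr]
    omega

/-- **The normal form of pencils.** -/
theorem sparse_of_symm [IsAlgClosed k] (h2 : (2 : k) ≠ 0) : ∀ (n : ℕ) (V : Type v)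
    [AddCommGroup V] [Module k V] [FiniteDimensional k V] (b : Fin 2 → V →ₗ[k] V →ₗ[k] k),
    (∀ l x y, b l x y = b l y x) → finrank k V = n → Sparse b := by
  intro n
  induction n using Nat.strong_induction_on with
  | _ n ih =>
  intro V _ _ _ b hsym hn
  classical
  rcases subsingleton_or_nontrivial V with hV | hV
  · exact ⟨Empty, inferInstance, inferInstance, Basis.empty V, fun e => e.elim, fun e => e.elim,
      fun e => e.elim, fun _ e => e.elim⟩
  -- the splitting of a block
  have hsplit : ∀ {ι : Type} [Fintype ι] [DecidableEq ι] [Nonempty ι] (w : ι → V)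
      (f : ι → V →ₗ[k] k) (hfw : ∀ i j, f i (w j) = if i = j then 1 else 0)
      (hort : ∀ l i v, (∀ j, f j v = 0) → b l (w i) v = 0) (s : ι → ι) (r : ι → ℕ)
      (hs : ∀ i, s i = i ∨ r i < r (s i))
      (hb : ∀ l i j, b l (w i) (w j) ≠ 0 → j = s i ∨ i = s j), Sparse b := by
    intro ι _ _ _ w f hfw hort s r hs hb
    refine sparse_split w f b hsym hfw hort s r hs hb ?_
    refine ih _ ?_ (kerf f) _ ?_ rfl
    · rw [← hn]
      exact finrank_kerf w f hfw
    · intro l x y
      simp only [LinearMap.compl₁₂_apply]
      exact hsym l _ _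
  by_cases hreg : ∃ c : Fin 2 → k, ∀ v, (∀ w, c 0 * b 0 v w + c 1 * b 1 v w = 0) → v = 0
  · obtain ⟨c, hc⟩ := hreg
    have hc0 : c 0 ≠ 0 ∨ c 1 ≠ 0 := by
      by_contra hcon
      push Not at hcon
      obtain ⟨v, hv⟩ := exists_ne (0 : V)
      apply hv
      apply hc
      intro w
      rw [hcon.1, hcon.2, zero_mul, zero_mul, add_zero]
    let a : V →ₗ[k] V →ₗ[k] k := c 0 • b 0 + c 1 • b 1
    have ha : ∀ x y, a x y = c 0 * b 0 x y + c 1 * b 1 x y := by
      intro x y
      simp [a]
    have hasym : ∀ x y, a x y = a y x := by
      intro x y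
      rw [ha, ha, hsym 0 x y, hsym 1 x y]
    have hand : ∀ v, (∀ w, a v w = 0) → v = 0 := by
      intro v hv
      apply hc
      intro w
      rw [← ha]
      exact hv w
    obtain ⟨a', ha', hspan⟩ : ∃ a' : V →ₗ[k] V →ₗ[k] k, (∀ x y, a' x y = a' y x) ∧
        ∀ l, ∃ u u' : k, ∀ x y, b l x y = u * a x y + u' * a' x y := by
      rcases hc0 with h | h
      · refine ⟨b 1, hsym 1, ?_⟩
        intro l
        fin_cases l
        · refine ⟨(c 0)⁻¹, -((c 0)⁻¹ * c 1), ?_⟩
          intro x y
          show b 0 x y = _
          rw [ha]
          field_simp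
          ring
        · refine ⟨0, 1, ?_⟩
          intro x y
          show b 1 x y = _
          ring
      · refine ⟨b 0, hsym 0, ?_⟩
        intro l
        fin_cases l
        · refine ⟨0, 1, ?_⟩
          intro x y
          show b 0 x y = _
          ring
        · refine ⟨(c 1)⁻¹, -((c 1)⁻¹ * c 0), ?_⟩
          intro x y
          show b 1 x y = _
          rw [ha]
          field_simp
          ring
    obtain ⟨m, hm, w, f, hfw, hort, hed⟩ := exists_jordan h2 a a' hasym ha' hand
    have : Nonempty (Fin m) := ⟨⟨0, hm⟩⟩
    refine hsplit w f hfw ?_ (js m) (jr m) (js_jr m) ?_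
    · intro l i v hv
      obtain ⟨u, u', hu⟩ := hspan l
      rw [hu, (hort i v hv).1, (hort i v hv).2, mul_zero, mul_zero, add_zero]
    · intro l i j hij
      apply js_edge
      apply hed
      by_contra hcon
      push Not at hcon
      apply hij
      obtain ⟨u, u', hu⟩ := hspan l
      rw [hu, hcon.1, hcon.2, mul_zero, mul_zero, add_zero]
  · push Not at hreg
    have hex : ∃ d, ∃ x : ℕ → V, Sol b d x := by
      apply exists_sol
      intro t
      obtain ⟨v, hv, hv0⟩ := hreg ![1, t]
      refine ⟨v, hv0, fun w => ?_⟩
      have h1 := hv w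
      simpa using h1
    let d := Nat.find hex
    obtain ⟨x, hx⟩ : ∃ x : ℕ → V, Sol b d x := Nat.find_spec hex
    have hmin : ∀ d' < d, ∀ x', ¬ Sol b d' x' := fun d' hd' x' h =>
      Nat.find_min hex hd' ⟨x', h⟩
    rcases Nat.eq_zero_or_pos d with hd | hd
    · -- a common kernel vector
      obtain ⟨g, hg⟩ : ∃ g : V →ₗ[k] k, g (x 0) = 1 := by
        obtain ⟨g, hg⟩ : ∃ g : Module.Dual k V, g (x 0) ≠ 0 := by
          by_contra hcon
          push Not at hcon
          exact hx.1 ((Module.forall_dual_apply_eq_zero_iff k (x 0)).1 hcon)
        refine ⟨(g (x 0))⁻¹ • g, ?_⟩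
        rw [LinearMap.smul_apply, smul_eq_mul, inv_mul_cancel₀ hg]
      have hx1 : ∀ l v, b l (x 0) v = 0 := by
        intro l v
        have h1 := hx.2.2.2 0 v
        rw [hx.2.1 (0 + 1) (by omega), map_zero, LinearMap.zero_apply, zero_add] at h1
        fin_cases l
        · exact hx.2.2.1 v
        · exact h1
      refine hsplit (fun _ : Unit => x 0) (fun _ => g) ?_ ?_ id (fun _ => 0) ?_ ?_
      · intro i j
        rw [hg, if_pos rfl]
      · intro l i v _
        exact hx1 l v
      · intro i
        exact Or.inl rfl
      · intro l i j h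
        exact absurd (hx1 l _) h
    · obtain ⟨d', hd'⟩ : ∃ d', d = d' + 1 := ⟨d - 1, by omega⟩
      rw [hd'] at hx
      obtain ⟨Y, hY1, hY2, hY3⟩ := exists_Y' b hsym h2 hx (hmin d' (by omega))
      have hiso := x_iso b hsym hx
      have hxY1 : ∀ i j, j ≤ d' → b 1 (x i) (Y j) = if i = j then -1 else 0 := by
        intro i j hj
        have e1 := hx.2.2.2 i (Y j)
        rw [hY2 _ _ hj] at e1
        by_cases hij : i = j
        · rw [if_pos (by omega)] at e1
          rw [if_pos hij]
          linear_combination e1
        · rw [if_neg (by omega)] at e1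
          rw [if_neg hij]
          linear_combination e1
      let w : Fin (d' + 2) ⊕ Fin (d' + 1) → V := Sum.elim (fun i => x i) (fun j => Y j)
      let f : Fin (d' + 2) ⊕ Fin (d' + 1) → V →ₗ[k] k := Sum.elim
        (fun i => if (i : ℕ) = 0 then - b 1 (Y 0) else b 0 (Y ((i : ℕ) - 1)))
        (fun j => b 0 (x ((j : ℕ) + 1)))
      have hf0 : ∀ i : Fin (d' + 2), (i : ℕ) = 0 → f (Sum.inl i) = - b 1 (Y 0) := fun i hi =>
        if_pos hi
      have hf1 : ∀ i : Fin (d' + 2), (i : ℕ) ≠ 0 → f (Sum.inl i) = b 0 (Y ((i : ℕ) - 1)) :=
        fun i hi => if_neg hi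
      have hf2 : ∀ j : Fin (d' + 1), f (Sum.inr j) = b 0 (x ((j : ℕ) + 1)) := fun j => rfl
      refine hsplit w f ?_ ?_ (ks d') (kr d') (ks_kr d') ?_
      · rintro (i | i) (j | j)
        · show f (Sum.inl i) (x j) = _
          have hj := j.2
          have hi := i.2
          by_cases hi0 : (i : ℕ) = 0
          · rw [hf0 i hi0, LinearMap.neg_apply, hsym, hxY1 _ _ (Nat.zero_le _)]
            by_cases hj0 : (j : ℕ) = 0
            · rw [if_pos hj0, if_pos (by rw [Fin.ext (hi0.trans hj0.symm)]), neg_neg]
            · rw [if_neg hj0, if_neg, neg_zero]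
              intro h
              rw [Sum.inl.injEq] at h
              exact hj0 (by rw [← h]; exact hi0)
          · rw [hf1 i hi0, hsym, hY2 _ _ (by omega)]
            by_cases hij : i = j
            · subst hij
              rw [if_pos rfl, if_pos (by omega)]
            · rw [if_neg, if_neg (by rwa [Sum.inl.injEq])]
              intro h
              exact hij (Fin.ext (by omega))
        · show f (Sum.inl i) (Y j) = _
          rw [if_neg (by simp)]
          have hj := j.2
          have hi := i.2
          by_cases hi0 : (i : ℕ) = 0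
          · rw [hf0 i hi0, LinearMap.neg_apply, (hY3 _ _ (Nat.zero_le _) (by omega)).2, neg_zero]
          · rw [hf1 i hi0, (hY3 _ _ (by omega) (by omega)).1]
        · show f (Sum.inr i) (x j) = _
          rw [if_neg (by simp), hf2, (hiso _ _).1]
        · show f (Sum.inr i) (Y j) = _
          have hj := j.2
          rw [hf2, hY2 _ _ (by omega)]
          by_cases hij : i = j
          · subst hij
            rw [if_pos rfl, if_pos rfl]
          · rw [if_neg, if_neg (by rwa [Sum.inr.injEq])]
            intro h
            exact hij (Fin.ext (by omega))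
      · intro l i v hv
        have hx0v : ∀ i, b 0 (x i) v = 0 := by
          intro i
          rcases Nat.eq_zero_or_pos i with rfl | hi
          · exact hx.2.2.1 v
          · rcases le_or_gt i (d' + 1) with h | h
            · have h1 := hv (Sum.inr ⟨i - 1, by omega⟩)
              rw [hf2] at h1
              simp only at h1
              rwa [show i - 1 + 1 = i by omega] at h1
            · rw [hx.2.1 i h, map_zero, LinearMap.zero_apply]
        have hx1v : ∀ i, b 1 (x i) v = 0 := by
          intro i
          have h1 := hx.2.2.2 i v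
          rwa [hx0v, zero_add] at h1
        have hY0v : ∀ j, j ≤ d' → b 0 (Y j) v = 0 := by
          intro j hj
          have h1 := hv (Sum.inl ⟨j + 1, by omega⟩)
          rw [hf1 _ (by simp)] at h1
          simpa using h1
        have hY1v : ∀ j, j ≤ d' → b 1 (Y j) v = 0 := by
          intro j hj
          rcases Nat.eq_zero_or_pos j with rfl | hj'
          · have h1 := hv (Sum.inl ⟨0, by omega⟩)
            rw [hf0 _ rfl, LinearMap.neg_apply, neg_eq_zero] at h1
            exact h1
          · obtain ⟨j', rfl⟩ : ∃ j', j = j' + 1 := ⟨j - 1, by omega⟩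
            have h1 := hY1 j' (by omega) v
            rwa [hY0v j' (by omega), zero_add] at h1
        rcases i with i | j
        · show b l (x i) v = 0
          fin_cases l
          · exact hx0v i
          · exact hx1v i
        · have hj := j.2
          show b l (Y j) v = 0
          fin_cases l
          · exact hY0v j (by omega)
          · exact hY1v j (by omega)
      · rintro l (i | i) (j | j) hij
        · exfalso
          apply hij
          show b l (x i) (x j) = 0
          fin_cases l
          · exact (hiso i j).1
          · exact (hiso i j).2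
        · have hj := j.2
          have hi := i.2
          have hij' : b l (x i) (Y j) ≠ 0 := hij
          fin_cases l
          · right
            have h1 : b 0 (x i) (Y j) ≠ 0 := hij'
            rw [hY2 _ _ (by omega)] at h1
            have h3 : (i : ℕ) = j + 1 := by
              by_contra h4
              exact h1 (if_neg h4)
            simp only [ks]
            congr 1
            exact Fin.ext h3
          · left
            have h1 : b 1 (x i) (Y j) ≠ 0 := hij'
            rw [hxY1 _ _ (by omega)] at h1
            have h3 : (i : ℕ) = j := by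
              by_contra h4
              exact h1 (if_neg h4)
            simp only [ks]
            rw [dif_pos (show (i : ℕ) < d' + 1 by omega)]
            congr 1
            exact Fin.ext h3.symm
        · have hj := j.2
          have hi := i.2
          have hij' : b l (x j) (Y i) ≠ 0 := by
            rw [hsym]
            exact hij
          fin_cases l
          · left
            have h1 : b 0 (x j) (Y i) ≠ 0 := hij'
            rw [hY2 _ _ (by omega)] at h1
            have h3 : (j : ℕ) = i + 1 := by
              by_contra h4
              exact h1 (if_neg h4)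
            simp only [ks]
            congr 1
            exact Fin.ext h3
          · right
            have h1 : b 1 (x j) (Y i) ≠ 0 := hij'
            rw [hxY1 _ _ (by omega)] at h1
            have h3 : (j : ℕ) = i := by
              by_contra h4
              exact h1 (if_neg h4)
            simp only [ks]
            rw [dif_pos (show (j : ℕ) < d' + 1 by omega)]
            congr 1
            exact Fin.ext h3.symm
        · exfalso
          apply hij
          have hj := j.2
          have hi := i.2
          show b l (Y i) (Y j) = 0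
          fin_cases l
          · exact (hY3 i j (by omega) (by omega)).1
          · exact (hY3 i j (by omega) (by omega)).2

end Pool.Agent.KS6_21.Q
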