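import Mathlib

/-!
The transcendence degree of the components of a system of equations.
-/

set_option autoImplicit false
set_option linter.unusedVariables false
set_option linter.unusedSectionVars false

universe u

open MvPolynomial

namespace Pool.Agent.KS6_21.Q

/-- All maximal ideals of a polynomial ring over a field have the same height. -/
theorem height_max (E : Type u) [Field E] : ∀ (n : ℕ) (P : Ideal (MvPolynomial (Fin n) E))
    [P.IsMaximal], P.height = n := by
  intro n
  induction n with
  | zero =>
    intro P hP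
    let e := (MvPolynomial.isEmptyRingEquiv E (Fin 0))
    have h1 : (P.map e).height = P.height := e.height_map P
    have h2 : (P.map e).IsMaximal := Ideal.map_isMaximal_of_equiv e
    have h3 : P.map e = ⊥ := by
      rcases Ideal.eq_bot_or_top (P.map e) with h | h
      · exact h
      · exact absurd h h2.ne_top
    rw [← h1, h3]
    simp
  | succ n ih =>
    intro P hP
    let e := (MvPolynomial.finSuccEquiv E n).toRingEquiv
    have h1 : (P.map e).height = P.height := e.height_map P
    have h2 : (P.map e).IsMaximal := Ideal.map_isMaximal_of_equiv e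
    have h3 : ((P.map e).comap (Polynomial.C : MvPolynomial (Fin n) E →+* _)).IsMaximal :=
      Polynomial.isMaximal_comap_C_of_isJacobsonRing _
    have h4 : (P.map e).LiesOver ((P.map e).comap (Polynomial.C : MvPolynomial (Fin n) E →+* _)) :=
      ⟨rfl⟩
    rw [← h1, Polynomial.height_eq_height_add_one
      ((P.map e).comap (Polynomial.C : MvPolynomial (Fin n) E →+* _)) (P.map e), ih _]
    rfl

/-- The same for arbitrary finite sets of variables. -/
theorem height_max' (E : Type u) [Field E] {C : Type} [Fintype C] (P : Ideal (MvPolynomial C E))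
    [P.IsMaximal] : P.height = Fintype.card C := by
  let e := (MvPolynomial.renameEquiv E (Fintype.equivFin C)).toRingEquiv
  have h1 : (P.map e).height = P.height := e.height_map P
  have h2 : (P.map e).IsMaximal := Ideal.map_isMaximal_of_equiv e
  rw [← h1, height_max]

/-- The transcendence degree of a component is at least the number of variables minus the number of
equations. -/
theorem card_le_trdeg {k K : Type u} [Field k] [Field K] [Algebra k K] {J : Type} [Fintype J]
    (y : J → K) (hgen : IntermediateField.adjoin k (Set.range y) = ⊤)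
    (F : Finset (MvPolynomial J k))
    (hmin : RingHom.ker (aeval y : MvPolynomial J k →ₐ[k] K) ∈
      (Ideal.span (F : Set (MvPolynomial J k))).minimalPrimes) :
    ((Fintype.card J : ℕ) : Cardinal.{u}) ≤ Algebra.trdeg k K + (F.card : ℕ) := by
  classical
  -- a transcendence basis
  have halg0 : Algebra.IsAlgebraic (Algebra.adjoin k (Set.range y)) K := by
    have h1 : Algebra.IsAlgebraic (IntermediateField.adjoin k (Set.range y)) K := by
      refine ⟨fun x => ?_⟩
      have hx : x ∈ IntermediateField.adjoin k (Set.range y) := by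
        rw [hgen]
        trivial
      exact isAlgebraic_algebraMap (⟨x, hx⟩ : IntermediateField.adjoin k (Set.range y))
    open scoped IntermediateField.algebraAdjoinAdjoin in
    exact (IsFractionRing.comap_isAlgebraic_iff (A := Algebra.adjoin k (Set.range y))
      (K := IntermediateField.adjoin k (Set.range y)) (C := K)).2 h1
  obtain ⟨t, ht, hbt⟩ := exists_isTranscendenceBasis_subset (R := k) (Set.range y)
  choose ρ hρ using fun a : t => ht a.2
  have htf : t.Finite := (Set.finite_range y).subset ht
  have : Fintype t := htf.fintype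
  have hρinj : Function.Injective ρ := fun a b hab => Subtype.ext (by rw [← hρ a, ← hρ b, hab])
  let C := {j : J // j ∉ Set.range ρ}
  have hcard : Fintype.card J = Fintype.card t + Fintype.card C := by
    rw [← Fintype.card_sum]
    apply Fintype.card_congr
    exact ((Equiv.ofInjective ρ hρinj).sumCongr (Equiv.refl C)).trans
      (Equiv.Set.sumCompl (Set.range ρ)) |>.symm
  obtain ⟨E, hE⟩ : ∃ E : IntermediateField k K, E = IntermediateField.adjoin k t := ⟨_, rfl⟩
  have hEalg : Algebra.IsAlgebraic E K := by
    have h2 := hbt.isAlgebraic_field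
    rw [Subtype.range_coe] at h2
    rw [hE]
    exact h2
  have hyE : ∀ j, j ∈ Set.range ρ → y j ∈ E := by
    rintro _ ⟨a, rfl⟩
    rw [hρ, hE]
    exact IntermediateField.subset_adjoin k _ a.2
  let ι : MvPolynomial J k →ₐ[k] MvPolynomial C E := aeval fun j =>
    if h : j ∈ Set.range ρ then MvPolynomial.C ⟨y j, hyE j h⟩ else X ⟨j, h⟩
  let φ' : MvPolynomial C E →ₐ[E] K := aeval fun c => y c
  have hι1 : ∀ j (h : j ∈ Set.range ρ), ι (X j) = MvPolynomial.C ⟨y j, hyE j h⟩ := by
    intro j h
    simp only [ι, aeval_X, dif_pos h]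
  have hι2 : ∀ j (h : j ∉ Set.range ρ), ι (X j) = X ⟨j, h⟩ := by
    intro j h
    simp only [ι, aeval_X, dif_neg h]
  have hcomp : ∀ f, φ' (ι f) = aeval y f := by
    have h3 : (φ'.restrictScalars k).comp ι = aeval y := by
      apply algHom_ext
      intro j
      show φ' (ι (X j)) = aeval y (X j)
      by_cases h : j ∈ Set.range ρ
      · rw [hι1 j h, algHom_C, aeval_X]
        rfl
      · rw [hι2 j h, aeval_X, aeval_X]
    intro f
    exact DFunLike.congr_fun h3 f
  have hadj : ∀ s ∈ Algebra.adjoin k t, ∃ (hs : s ∈ E) (b : MvPolynomial J k),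
      ι b = MvPolynomial.C (⟨s, hs⟩ : E) := by
    intro s hs
    induction hs using Algebra.adjoin_induction with
    | mem s hs =>
      have h4 : s ∈ E := by
        rw [hE]
        exact IntermediateField.subset_adjoin k _ hs
      refine ⟨h4, X (ρ ⟨s, hs⟩), ?_⟩
      rw [hι1 _ ⟨_, rfl⟩]
      congr 1
      exact Subtype.ext (hρ ⟨s, hs⟩)
    | algebraMap c =>
      refine ⟨E.algebraMap_mem c, MvPolynomial.C c, ?_⟩
      rw [algHom_C]
      rfl
    | add u v _ _ hu hv =>
      obtain ⟨hu1, bu, hbu⟩ := hu
      obtain ⟨hv1, bv, hbv⟩ := hv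
      refine ⟨add_mem hu1 hv1, bu + bv, ?_⟩
      rw [map_add, hbu, hbv, ← map_add]
      rfl
    | mul u v _ _ hu hv =>
      obtain ⟨hu1, bu, hbu⟩ := hu
      obtain ⟨hv1, bv, hbv⟩ := hv
      refine ⟨mul_mem hu1 hv1, bu * bv, ?_⟩
      rw [map_mul, hbu, hbv, ← map_mul]
      rfl
  have hden : ∀ g : MvPolynomial C E, ∃ s : E, s ≠ 0 ∧ (∃ b, ι b = MvPolynomial.C s) ∧
      ∃ a, ι a = MvPolynomial.C s * g := by
    intro g
    induction g using MvPolynomial.induction_on with
    | C e =>
      have he : (e : K) ∈ IntermediateField.adjoin k t := by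
        rw [← hE]
        exact e.2
      obtain ⟨r, hr, s, hs, hrs⟩ := IntermediateField.mem_adjoin_iff_div.1 he
      obtain ⟨hr1, a, ha⟩ := hadj r hr
      obtain ⟨hs1, b, hb⟩ := hadj s hs
      by_cases hs0 : s = 0
      · rw [hs0, div_zero] at hrs
        have he0 : e = 0 := Subtype.ext hrs
        refine ⟨1, one_ne_zero, ⟨1, by rw [map_one, map_one]⟩, 0, ?_⟩
        rw [he0, map_zero, map_zero, mul_zero]
      · refine ⟨⟨s, hs1⟩, fun h => hs0 (congrArg Subtype.val h), ⟨b, hb⟩, a, ?_⟩
        rw [ha, ← map_mul]
        congr 1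
        apply Subtype.ext
        show r = s * (e : K)
        rw [hrs, mul_div_cancel₀ _ hs0]
    | add g g' hg hg' =>
      obtain ⟨s, hs, ⟨b, hb⟩, a, ha⟩ := hg
      obtain ⟨s', hs', ⟨b', hb'⟩, a', ha'⟩ := hg'
      refine ⟨s * s', mul_ne_zero hs hs', ⟨b * b', by rw [map_mul, hb, hb', ← map_mul]⟩,
        a * b' + a' * b, ?_⟩
      rw [map_add, map_mul, map_mul, ha, ha', hb, hb', map_mul]
      ring
    | mul_X g c hg =>
      obtain ⟨s, hs, hb, a, ha⟩ := hg
      refine ⟨s, hs, hb, a * X c.1, ?_⟩
      rw [map_mul, ha, hι2 c.1 c.2, mul_assoc]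
  -- the maximal ideal
  have hmax : (RingHom.ker φ').IsMaximal := by
    apply Ideal.Quotient.maximal_of_isField
    exact (Ideal.quotientKerEquivRange φ').toMulEquiv.isField
      (Subalgebra.isField_of_algebraic φ'.range)
  have hmin' : RingHom.ker φ' ∈ (Ideal.span ((F.image ι : Finset _) :
      Set (MvPolynomial C E))).minimalPrimes := by
    refine ⟨⟨RingHom.ker_isPrime _, ?_⟩, ?_⟩
    · rw [Ideal.span_le]
      intro f' hf'
      obtain ⟨f, hf, rfl⟩ := Finset.mem_image.1 hf'
      show φ' (ι f) = 0
      rw [hcomp]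
      exact hmin.1.2 (Ideal.subset_span hf)
    · rintro 𝔮 ⟨h𝔮, h𝔮'⟩ hle g hg
      have h5 : RingHom.ker (aeval y : MvPolynomial J k →ₐ[k] K) ≤ 𝔮.comap ι := by
        apply hmin.2
        · refine ⟨Ideal.comap_isPrime _ _, ?_⟩
          rw [Ideal.span_le]
          intro f hf
          exact h𝔮' (Ideal.subset_span (Finset.mem_image_of_mem ι hf))
        · intro f hf
          have h6 : φ' (ι f) = 0 := hle hf
          rw [hcomp] at h6
          exact h6
      obtain ⟨s, hs, -, a, ha⟩ := hden g
      have h7 : ι a ∈ 𝔮 := by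
        apply h5
        show aeval y a = 0
        rw [← hcomp, ha, map_mul, show φ' g = 0 from hg, mul_zero]
      rw [ha] at h7
      have h8 : g = MvPolynomial.C s⁻¹ * (MvPolynomial.C s * g) := by
        rw [← mul_assoc, ← map_mul, inv_mul_cancel₀ hs, map_one, one_mul]
      rw [h8]
      exact Ideal.mul_mem_left _ _ h7
  have h9 : (Fintype.card C : ℕ∞) ≤ (F.card : ℕ∞) := by
    have h10 := Ideal.height_le_card_of_mem_minimalPrimes_span_finset hmin'
    rw [height_max'] at h10
    refine h10.trans ?_
    exact_mod_cast Finset.card_image_le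
  have h11 : Fintype.card C ≤ F.card := by exact_mod_cast h9
  have h12 : Algebra.trdeg k K = (Fintype.card t : ℕ) := by
    rw [← hbt.cardinalMk_eq_trdeg]
    exact Cardinal.mk_fintype t
  rw [h12, ← Nat.cast_add, Nat.cast_le, hcard]
  omega

end Pool.Agent.KS6_21.Q
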