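import Pool.Agent.KS6_21.Q.System
import Pool.Agent.KS6_21.Q.Krull
import Pool.Agent.KS6_21.P3.Form

/-!
Linear systems of sparse quadrics: the coordinates of the generic point.
-/

set_option autoImplicit false
set_option linter.unusedVariables false
set_option linter.unusedSectionVars false

open MvPolynomial Module Pool.Agent.W558 Pool.Agent.KS6_21.P1 Pool.Agent.TH214.SD
  Pool.Agent.N102.FL

namespace Pool.Agent.KS6_21.Q

/-- The edges of a forest with loops are independent. -/
lemma indep {F : Type} [Field F] (h2 : (2 : F) ≠ 0) {I J : Type} [Fintype I] [DecidableEq J]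
    (a b : I → J) (ha : Function.Injective a) (r : J → ℕ)
    (hr : ∀ i, b i = a i ∨ r (a i) < r (b i)) (c : I → F)
    (hc : ∀ j, ∑ i, c i * ((if a i = j then 1 else 0) + (if b i = j then 1 else 0)) = 0) :
    c = 0 := by
  classical
  by_contra h0
  have hne : (Finset.univ.filter fun i => c i ≠ 0).Nonempty := by
    obtain ⟨i, hi⟩ := Function.ne_iff.1 h0
    exact ⟨i, Finset.mem_filter.2 ⟨Finset.mem_univ _, hi⟩⟩
  obtain ⟨i, hi, hmin⟩ := Finset.exists_min_image _ (fun i => r (a i)) hne
  have hi' : c i ≠ 0 := (Finset.mem_filter.1 hi).2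
  have h1 := hc (a i)
  rw [Finset.sum_eq_single i] at h1
  · rw [if_pos rfl] at h1
    rcases mul_eq_zero.1 h1 with h | h
    · exact hi' h
    · split_ifs at h
      · exact h2 (by rw [← h]; norm_num)
      · simp at h
  · intro i' _ hne'
    have h3 : a i' ≠ a i := fun h => hne' (ha h)
    rw [if_neg h3]
    by_cases h4 : b i' = a i
    · have h5 : c i' = 0 := by
        by_contra h6
        have h7 := hmin i' (Finset.mem_filter.2 ⟨Finset.mem_univ _, h6⟩)
        rcases hr i' with h8 | h8
        · exact h3 (h8.symm.trans h4)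
        · rw [h4] at h8
          exact absurd h8 (not_lt.2 h7)
      rw [h5, zero_mul]
    · rw [if_neg h4, add_zero, mul_zero]
  · intro h
    exact absurd (Finset.mem_univ _) h

section core

variable (p : ℕ) [Fact p.Prime] {k K F : Type} [Field k] [PerfectField k] [CharP k p]
  [Field K] [Field F] [Algebra k K] [Algebra k F] [Algebra K F] [IsScalarTower k K F]

/-- The dimension of the variety and the number of the relations. -/
lemma card_le {J I : Type} [Fintype J] [Fintype I] (y : J → K) (t : F) (a b : I → J)
    (Q : Submodule k (MvPolynomial J k))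
    (hQ : Q ≤ Submodule.span k (Set.range fun i : I => (X (a i) * X (b i) : MvPolynomial J k)))
    (ht : t ≠ 0)
    (hmin : RingHom.ker (aeval (fun j => algebraMap K F (y j) * t) : MvPolynomial J k →ₐ[k] F) ∈
      (Ideal.span (Q : Set (MvPolynomial J k))).minimalPrimes) :
    ((Fintype.card J + finrank k (Submodule.span k (Set.range fun i => y (a i) * y (b i))) : ℕ) :
      Cardinal.{0}) ≤ Algebra.trdeg k K + 1 + (Fintype.card I : ℕ) := by
  classical
  let V := Submodule.span k (Set.range fun i : I => (X (a i) * X (b i) : MvPolynomial J k))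
  have hV : Module.Finite k V := FiniteDimensional.span_of_finite k (Set.finite_range _)
  have hQf : Module.Finite k Q := Submodule.finiteDimensional_of_le hQ
  let φ : MvPolynomial J k →ₐ[k] F := aeval (fun j => algebraMap K F (y j) * t)
  -- a basis
  let B := Module.finBasis k Q
  let G : Finset (MvPolynomial J k) := Finset.univ.image fun i => (B i : MvPolynomial J k)
  have hG : Submodule.span k (G : Set (MvPolynomial J k)) = Q := by
    have h1 : (G : Set (MvPolynomial J k)) = Q.subtype '' Set.range B := by
      rw [Finset.coe_image, Finset.coe_univ, Set.image_univ, ← Set.range_comp]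
      rfl
    rw [h1, ← Submodule.map_span, B.span_eq, Submodule.map_top, Submodule.range_subtype]
  have hGc : G.card ≤ finrank k Q := by
    refine Finset.card_image_le.trans ?_
    rw [Finset.card_univ, Fintype.card_fin]
  have hGI : Ideal.span (G : Set (MvPolynomial J k)) = Ideal.span (Q : Set (MvPolynomial J k)) := by
    apply le_antisymm
    · rw [Ideal.span_le]
      intro g hg
      refine Ideal.subset_span ?_
      have h2 : g ∈ Submodule.span k (G : Set (MvPolynomial J k)) := Submodule.subset_span hg
      rwa [hG] at h2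
    · rw [Ideal.span_le]
      intro g hg
      have h2 : g ∈ Submodule.span k (G : Set (MvPolynomial J k)) := by rwa [hG]
      exact Submodule.span_subset_span k (MvPolynomial J k) (G : Set (MvPolynomial J k)) h2
  -- the field of the coordinates
  let F1 : IntermediateField k F := IntermediateField.adjoin k
    (Set.range fun j => algebraMap K F (y j) * t)
  let y1 : J → F1 := fun j => ⟨algebraMap K F (y j) * t, IntermediateField.subset_adjoin k _ ⟨j, rfl⟩⟩
  have hgen1 : IntermediateField.adjoin k (Set.range y1) = ⊤ := by
    apply IntermediateField.lift_injective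
    rw [IntermediateField.lift_adjoin, IntermediateField.lift_top, ← Set.range_comp]
    rfl
  have hker : RingHom.ker (aeval y1 : MvPolynomial J k →ₐ[k] F1) = RingHom.ker φ := by
    have h3 : φ = F1.val.comp (aeval y1) := by
      ext j
      simp [φ, y1]
    ext f
    rw [RingHom.mem_ker, RingHom.mem_ker, h3]
    constructor
    · intro h
      rw [AlgHom.comp_apply, h, map_zero]
    · intro h
      exact F1.val.injective (by rw [map_zero]; exact h)
  have h4 := card_le_trdeg y1 hgen1 G (by
    rw [hker, hGI]
    exact hmin)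
  have htr : Algebra.trdeg k F1 ≤ Algebra.trdeg k K + 1 := by
    let F2 : IntermediateField K F := IntermediateField.adjoin K {t}
    have hle : F1 ≤ F2.restrictScalars k := by
      rw [IntermediateField.adjoin_le_iff]
      rintro _ ⟨j, rfl⟩
      exact mul_mem (F2.algebraMap_mem _) (IntermediateField.mem_adjoin_simple_self K t)
    have h5 : Algebra.trdeg k F1 ≤ Algebra.trdeg k F2 :=
      trdeg_le_of_injective (A' := F2) (IntermediateField.inclusion hle)
        (IntermediateField.inclusion_injective hle)
    have h6 : Algebra.trdeg k K + Algebra.trdeg K F2 = Algebra.trdeg k F2 :=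
      trdeg_add_eq k K (A := F2)
    have h7 : Algebra.trdeg K F2 ≤ 1 := by
      let t2 : F2 := ⟨t, IntermediateField.mem_adjoin_simple_self K t⟩
      have hgen2 : IntermediateField.adjoin K ({t2} : Set F2) = ⊤ := by
        apply IntermediateField.lift_injective
        rw [IntermediateField.lift_adjoin, IntermediateField.lift_top, Set.image_singleton]
      have halg : Algebra.IsAlgebraic (Algebra.adjoin K ({t2} : Set F2)) F2 := by
        have h1 : Algebra.IsAlgebraic (IntermediateField.adjoin K ({t2} : Set F2)) F2 := by
          refine ⟨fun x => ?_⟩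
          have hx : x ∈ IntermediateField.adjoin K ({t2} : Set F2) := by
            rw [hgen2]
            trivial
          exact isAlgebraic_algebraMap (⟨x, hx⟩ : IntermediateField.adjoin K ({t2} : Set F2))
        open scoped IntermediateField.algebraAdjoinAdjoin in
        exact (IsFractionRing.comap_isAlgebraic_iff (A := Algebra.adjoin K ({t2} : Set F2))
          (K := IntermediateField.adjoin K ({t2} : Set F2)) (C := F2)).2 h1
      have h8 := Algebra.IsAlgebraic.trdeg_le_cardinalMk K ({t2} : Set F2)
      rwa [Cardinal.mk_singleton] at h8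
    calc _ ≤ _ := h5
      _ = _ := h6.symm
      _ ≤ _ := by gcongr
  -- the relations
  have hrel : finrank k Q + finrank k (Submodule.span k (Set.range fun i => y (a i) * y (b i))) ≤
      Fintype.card I := by
    let ψ : V →ₗ[k] F := φ.toLinearMap.comp V.subtype
    have h9 := ψ.finrank_range_add_finrank_ker
    have h10 : finrank k V ≤ Fintype.card I := finrank_range_le_card _
    have h11 : finrank k Q ≤ finrank k (LinearMap.ker ψ) := by
      rw [← (Submodule.comapSubtypeEquivOfLe hQ).finrank_eq]
      apply Submodule.finrank_mono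
      intro v hv
      have h12 : (v : MvPolynomial J k) ∈ Ideal.span (Q : Set (MvPolynomial J k)) :=
        Ideal.subset_span hv
      exact hmin.1.2 h12
    have h12 : finrank k (Submodule.span k (Set.range fun i => y (a i) * y (b i))) ≤
        finrank k (LinearMap.range ψ) := by
      let g : K →ₗ[k] F := (LinearMap.mulRight k (t * t)).comp
        (IsScalarTower.toAlgHom k K F).toLinearMap
      have hg : ∀ w, g w = algebraMap K F w * (t * t) := fun w => rfl
      have hginj : Function.Injective g := by
        intro w w' h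
        rw [hg, hg] at h
        exact (algebraMap K F).injective (mul_right_cancel₀ (mul_ne_zero ht ht) h)
      have h13 : (Submodule.span k (Set.range fun i => y (a i) * y (b i))).map g ≤
          LinearMap.range ψ := by
        rw [Submodule.map_span, Submodule.span_le]
        rintro _ ⟨_, ⟨i, rfl⟩, rfl⟩
        refine ⟨⟨X (a i) * X (b i), Submodule.subset_span ⟨i, rfl⟩⟩, ?_⟩
        change φ (X (a i) * X (b i)) = _
        rw [hg, map_mul, map_mul]
        simp only [φ, aeval_X]
        ring
      have h14 := Submodule.finrank_mono h13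
      rwa [← (Submodule.equivMapOfInjective g hginj _).finrank_eq] at h14
    omega
  have h15 : (Fintype.card J : Cardinal.{0}) ≤ Algebra.trdeg k K + 1 + (finrank k Q : ℕ) := by
    refine h4.trans ?_
    refine add_le_add htr ?_
    exact_mod_cast hGc
  calc ((Fintype.card J + finrank k (Submodule.span k (Set.range fun i => y (a i) * y (b i))) :
        ℕ) : Cardinal.{0}) = (Fintype.card J : Cardinal.{0}) +
        (finrank k (Submodule.span k (Set.range fun i => y (a i) * y (b i))) : ℕ) :=
          Nat.cast_add _ _
    _ ≤ Algebra.trdeg k K + 1 + (finrank k Q : ℕ) +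
        (finrank k (Submodule.span k (Set.range fun i => y (a i) * y (b i))) : ℕ) := by
          gcongr
    _ = Algebra.trdeg k K + 1 + ((finrank k Q + 
        finrank k (Submodule.span k (Set.range fun i => y (a i) * y (b i))) : ℕ) : Cardinal.{0}) := by
          rw [Nat.cast_add, add_assoc]
    _ ≤ _ := by
      gcongr

/-- Vanishing coordinates can be omitted. -/
lemma min_red {ι : Type} (z : ι → K) (t : F) (Q : Submodule k (MvPolynomial ι k))
    (θ : MvPolynomial ι k →ₐ[k] MvPolynomial {i : ι // z i ≠ 0} k)
    (hθ : ∀ i : {i : ι // z i ≠ 0}, θ (X i.1) = X i) (hθ' : ∀ i, z i = 0 → θ (X i) = 0)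
    (hmin : RingHom.ker (aeval (fun i => algebraMap K F (z i) * t) : MvPolynomial ι k →ₐ[k] F) ∈
      (Ideal.span (Q : Set (MvPolynomial ι k))).minimalPrimes) :
    RingHom.ker (aeval (fun i : {i : ι // z i ≠ 0} => algebraMap K F (z i) * t) :
      MvPolynomial {i : ι // z i ≠ 0} k →ₐ[k] F) ∈
      (Ideal.span ((Q.map θ.toLinearMap : Submodule k _) :
        Set (MvPolynomial {i : ι // z i ≠ 0} k))).minimalPrimes := by
  classical
  have hcomp : ∀ f, aeval (fun i : {i : ι // z i ≠ 0} => algebraMap K F (z i) * t) (θ f) =
      aeval (fun i => algebraMap K F (z i) * t) f := by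
    intro f
    have h1 : (aeval (fun i : {i : ι // z i ≠ 0} => algebraMap K F (z i) * t)).comp θ =
        aeval (fun i => algebraMap K F (z i) * t) := by
      apply MvPolynomial.algHom_ext
      intro i
      rw [AlgHom.comp_apply, aeval_X]
      by_cases h : z i = 0
      · rw [hθ' i h, map_zero, h, map_zero, zero_mul]
      · rw [hθ ⟨i, h⟩, aeval_X]
    exact DFunLike.congr_fun h1 f
  have hsurj : ∀ f, ∃ g, θ g = f := by
    intro f
    refine ⟨rename Subtype.val f, ?_⟩
    have h1 : θ.comp (rename Subtype.val) = AlgHom.id k _ := by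
      apply MvPolynomial.algHom_ext
      intro i
      rw [AlgHom.comp_apply, rename_X, hθ]
      rfl
    exact DFunLike.congr_fun h1 f
  refine ⟨⟨RingHom.ker_isPrime _, ?_⟩, ?_⟩
  · rw [Ideal.span_le]
    rintro _ ⟨g, hg, rfl⟩
    have h2 : g ∈ Ideal.span (Q : Set (MvPolynomial ι k)) := Ideal.subset_span hg
    have h3 := hmin.1.2 h2
    rw [RingHom.mem_ker] at h3
    change _ = _
    rw [← h3]
    exact hcomp g
  · intro 𝔮 hq hle
    have hq1 := hq.1
    have h4 := hmin.2 (y := Ideal.comap θ 𝔮) ⟨Ideal.comap_isPrime θ 𝔮, by
      rw [Ideal.span_le]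
      intro g hg
      exact hq.2 (Ideal.subset_span ⟨g, hg, rfl⟩)⟩ (by
      intro g hg
      have h5 := hle hg
      rw [RingHom.mem_ker] at h5 ⊢
      rw [← hcomp]
      exact h5)
    intro f hf
    obtain ⟨g, rfl⟩ := hsurj f
    refine h4 ?_
    rw [RingHom.mem_ker] at hf ⊢
    rw [← hcomp]
    exact hf

/-- **Linear systems of sparse quadrics.** -/
theorem md_sparse (hp2 : p ≠ 2) {ι : Type} [Fintype ι] [DecidableEq ι] (s : ι → ι) (r : ι → ℕ)
    (hr : ∀ i, s i = i ∨ r i < r (s i)) (z : ι → K) (j0 : ι) (hj0 : z j0 = 1)
    (hgen : IntermediateField.adjoin k (Set.range z) = ⊤) (t : F) (ht : t ≠ 0)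
    (Q : Submodule k (MvPolynomial ι k))
    (hQ : Q ≤ Submodule.span k (Set.range fun i => (X i * X (s i) : MvPolynomial ι k)))
    (hmin : RingHom.ker (aeval (fun i => algebraMap K F (z i) * t) : MvPolynomial ι k →ₐ[k] F) ∈
      (Ideal.span (Q : Set (MvPolynomial ι k))).minimalPrimes) :
    Md p k (Set.range z ∪ {g | g ∈ Submodule.span k (Set.range fun i => z i * z (s i))})
      (fun e : Empty => (e.elim : K)) := by
  classical
  let J := {i : ι // z i ≠ 0}
  let I := {j : J // z (s j.1) ≠ 0}
  let a : I → J := fun i => i.1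
  let b : I → J := fun i => ⟨s i.1.1, i.2⟩
  have ha : Function.Injective a := Subtype.val_injective
  have hab : ∀ i, b i = a i ∨ r (a i).1 < r (b i).1 := by
    intro i
    rcases hr i.1.1 with h | h
    · exact Or.inl (Subtype.ext h)
    · exact Or.inr h
  let θ : MvPolynomial ι k →ₐ[k] MvPolynomial J k :=
    aeval fun i => if h : z i ≠ 0 then X ⟨i, h⟩ else 0
  have hθ : ∀ i : J, θ (X i.1) = X i := fun i => by
    simp only [θ, aeval_X]
    rw [dif_pos i.2]
  have hθ' : ∀ i, z i = 0 → θ (X i) = 0 := fun i h => by
    simp only [θ, aeval_X]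
    rw [dif_neg (by simpa using h)]
  have hmin' := min_red z t Q θ hθ hθ' hmin
  let j1 : J := ⟨j0, by rw [hj0]; exact one_ne_zero⟩
  have hQ' : Q.map θ.toLinearMap ≤ Submodule.span k
      (Set.range fun i : I => (X (a i) * X (b i) : MvPolynomial J k)) := by
    refine (Submodule.map_mono hQ).trans ?_
    rw [Submodule.map_span, Submodule.span_le]
    rintro _ ⟨_, ⟨i, rfl⟩, rfl⟩
    change θ (X i * X (s i)) ∈ _
    rw [map_mul]
    by_cases h1 : z i = 0
    · rw [hθ' i h1, zero_mul]
      exact zero_mem _
    by_cases h2 : z (s i) = 0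
    · rw [hθ' (s i) h2, mul_zero]
      exact zero_mem _
    · rw [hθ ⟨i, h1⟩, hθ ⟨s i, h2⟩]
      exact Submodule.subset_span ⟨⟨⟨i, h1⟩, h2⟩, rfl⟩
  have hdim := card_le (fun j : J => z j) t a b _ hQ' ht hmin'
  -- the coordinates different from the first one
  let J0 := {j : J // j ≠ j1}
  have hcardJ : Fintype.card J = Fintype.card J0 + 1 := by
    have h6 := Fintype.card_subtype_compl (fun i : J => i = j1)
    rw [Fintype.card_subtype_eq] at h6
    have h7 : 0 < Fintype.card J := Fintype.card_pos_iff.2 ⟨j1⟩
    have h8 : Fintype.card J0 = Fintype.card {i : J // ¬ i = j1} := rfl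
    omega
  have hdim0 : ((Fintype.card J0 + finrank k (Submodule.span k
      (Set.range fun i : I => z (a i) * z (b i))) : ℕ) : Cardinal.{0}) ≤
        Algebra.trdeg k K + (Fintype.card I : ℕ) := by
    have h9 : ((Fintype.card J0 + finrank k (Submodule.span k
      (Set.range fun i : I => z (a i) * z (b i))) : ℕ) : Cardinal.{0}) + (1 : ℕ) ≤
        Algebra.trdeg k K + (Fintype.card I : ℕ) + (1 : ℕ) := by
      rw [← Nat.cast_add, add_right_comm, ← hcardJ]
      refine hdim.trans ?_
      rw [Nat.cast_one, add_right_comm]
    exact (Cardinal.add_nat_le_add_nat_iff _).1 h9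
  let z0 : J0 → K := fun j => z j.1.1
  have hz0 : ∀ j, z0 j ≠ 0 := fun j => j.1.2
  have hgen0 : IntermediateField.adjoin k (Set.range z0) = ⊤ := by
    rw [eq_top_iff, ← hgen, IntermediateField.adjoin_le_iff]
    rintro _ ⟨i, rfl⟩
    by_cases h1 : z i = 0
    · rw [h1]
      exact zero_mem _
    · by_cases h2 : i = j0
      · rw [h2, hj0]
        exact one_mem _
      · exact IntermediateField.subset_adjoin k _
          ⟨⟨⟨i, h1⟩, fun h => h2 (congrArg Subtype.val h)⟩, rfl⟩
  let δ : J → J0 → ℤ := fun j i => if j = i.1 then 1 else 0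
  have hδ : ∀ j, mono z0 (δ j) = z j.1 := by
    intro j
    by_cases h : j = j1
    · have h1 : δ j = 0 := by
        funext i
        simp only [δ]
        rw [if_neg (fun h2 => i.2 (h2.symm.trans h))]
        rfl
      rw [h1, h, hj0]
      simp [mono]
    · have h1 : δ j = Pi.single ⟨j, h⟩ 1 := by
        funext i
        simp only [δ, Pi.single_apply]
        refine if_congr ?_ rfl rfl
        constructor
        · intro h2
          exact Subtype.ext h2.symm
        · intro h2
          exact (congrArg Subtype.val h2).symm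
      rw [h1, mono_single, zpow_one]
  have hspan : ∀ g ∈ Submodule.span k (Set.range fun i => z i * z (s i)),
      g ∈ Submodule.span k (Set.range fun i : I => z (a i).1 * z (b i).1) := by
    intro g hg
    refine Submodule.span_le.2 ?_ hg
    rintro _ ⟨i, rfl⟩
    change z i * z (s i) ∈ _
    by_cases h1 : z i = 0
    · rw [h1, zero_mul]
      exact zero_mem _
    by_cases h2 : z (s i) = 0
    · rw [h2, mul_zero]
      exact zero_mem _
    · exact Submodule.subset_span ⟨⟨⟨i, h1⟩, h2⟩, rfl⟩
  have h5 : (fun i : Empty => algebraMap k K (i.elim : k)) = fun e : Empty => (e.elim : K) :=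
    funext fun e => e.elim
  have hzr : Set.range z ⊆ algebraMap k K '' (Set.univ : Set k) ∪ Set.range z0 := by
    rintro _ ⟨i, rfl⟩
    by_cases h1 : z i = 0
    · exact Or.inl ⟨0, trivial, by rw [h1, map_zero]⟩
    · by_cases h2 : i = j0
      · exact Or.inl ⟨1, trivial, by rw [h2, hj0, map_one]⟩
      · exact Or.inr ⟨⟨⟨i, h1⟩, fun h => h2 (congrArg Subtype.val h)⟩, rfl⟩
  rcases isEmpty_or_nonempty I with hI | hI
  · -- no relations
    have h1 := md_monomials (L := k) p (P3.md_pt (k := k) p Set.univ) z0 hz0 hgen0
      (fun (_ : Unit) (_ : J0) => (0 : ℤ)) (by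
        intro c hc _
        funext i
        simpa using hc) (by
        rw [Fintype.card_unit]
        have h2 : finrank k (Submodule.span k (Set.range fun _ : Unit =>
            mono z0 (fun _ => (0 : ℤ)))) ≤ 1 := by
          have h3 := finrank_range_le_card (R := k) (fun _ : Unit => mono z0 (fun _ => (0 : ℤ)))
          rwa [Fintype.card_unit] at h3
        have h4 : ((Fintype.card J0 : ℕ) : Cardinal.{0}) ≤ Algebra.trdeg k K := by
          refine le_trans ?_ (hdim0.trans ?_)
          · exact_mod_cast Nat.le_add_right _ _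
          · rw [Fintype.card_eq_zero, Nat.cast_zero, add_zero]
        rw [Nat.cast_add]
        exact add_le_add h4 (by exact_mod_cast h2))
    rw [h5] at h1
    refine h1.mono ?_
    rintro g (hg | hg)
    · rcases hzr hg with h | h
      · exact Or.inl h
      · exact Or.inr (Or.inl h)
    · have h6 := hspan g hg
      rw [Set.range_eq_empty, Submodule.span_empty, Submodule.mem_bot] at h6
      exact Or.inl ⟨0, trivial, by rw [h6, map_zero]⟩
  · let T : I → J0 → ℤ := fun i => δ (a i) + δ (b i)
    have hT : ∀ i, mono z0 (T i) = z (a i).1 * z (b i).1 := fun i => by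
      simp only [T]
      rw [mono_add hz0, hδ, hδ]
    have h7 : (fun i => mono z0 (T i)) = fun i : I => z (a i).1 * z (b i).1 := funext hT
    have h2 : (2 : ZMod p) ≠ 0 := by
      intro h
      have h3 : p ∣ 2 := by
        rw [← ZMod.natCast_eq_zero_iff]
        exact_mod_cast h
      exact hp2 ((Nat.prime_dvd_prime_iff_eq Fact.out Nat.prime_two).1 h3)
    have h1 := md_monomials (L := k) p (P3.md_pt (k := k) p Set.univ) z0 hz0 hgen0 T (by
      intro c hc hc0
      refine indep h2 a b ha (fun j => r j.1) hab c ?_
      have h3 : ∀ j : J0, ∑ i, c i * ((if a i = j.1 then 1 else 0) +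
          (if b i = j.1 then 1 else 0)) = 0 := by
        intro j
        refine Eq.trans (Finset.sum_congr rfl fun i _ => ?_) (hc0 j)
        simp only [T, δ, Pi.add_apply, Int.cast_add, Int.cast_ite, Int.cast_one, Int.cast_zero]
      intro j
      by_cases hj : j = j1
      · have h4 : ∑ j : J, ∑ i, c i * ((if a i = j then 1 else 0) +
          (if b i = j then 1 else 0)) = 0 := by
          rw [Finset.sum_comm]
          have h5 : ∀ i, ∑ j : J, c i * ((if a i = j then (1 : ZMod p) else 0) +
              (if b i = j then 1 else 0)) = c i * 2 := by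
            intro i
            rw [← Finset.mul_sum, Finset.sum_add_distrib, Finset.sum_ite_eq, Finset.sum_ite_eq,
              if_pos (Finset.mem_univ _), if_pos (Finset.mem_univ _), one_add_one_eq_two]
          rw [Finset.sum_congr rfl fun i _ => h5 i, ← Finset.sum_mul, hc, zero_mul]
        have h6 : ∑ j ∈ Finset.univ.erase j1, ∑ i, c i * ((if a i = j then 1 else 0) +
            (if b i = j then 1 else 0)) = 0 :=
          Finset.sum_eq_zero fun j' hj' => h3 ⟨j', (Finset.mem_erase.1 hj').1⟩
        rw [← Finset.add_sum_erase Finset.univ _ (Finset.mem_univ j1), h6, add_zero] at h4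
        rw [hj]
        exact h4
      · exact h3 ⟨j, hj⟩) (by
      rw [h7]
      exact hdim0)
    rw [h5] at h1
    refine h1.mono ?_
    rintro g (hg | hg)
    · rcases hzr hg with h | h
      · exact Or.inl h
      · exact Or.inr (Or.inl h)
    · have h6 := hspan g hg
      rw [h7]
      exact Or.inr (Or.inr h6)

end core

end Pool.Agent.KS6_21.Q
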