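import Mathlib

/-!
The homogeneous generic point of a graded domain.
-/

set_option autoImplicit false
set_option linter.unusedVariables false
set_option linter.unusedSectionVars false

open DirectSum

namespace Pool.Agent.KS6_21.Q

section gen

variable {k S F : Type} [Field k] [CommRing S] [Algebra k S] (𝒜 : ℕ → Submodule k S)
  [GradedAlgebra 𝒜] [Field F] [Algebra k F] [Algebra S F] [IsScalarTower k S F]

/-- The values of the forms after division by the powers of a form `t` of degree one. -/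
theorem exists_generic (t : F) (ht : t ≠ 0) :
    ∃ ξ : S →ₐ[k] F, ∀ n, ∀ s ∈ 𝒜 n, ξ s = algebraMap S F s / t ^ n := by
  let f : ∀ n, 𝒜 n →ₗ[k] F := fun n =>
    (LinearMap.mulRight k (t ^ n)⁻¹).comp ((IsScalarTower.toAlgHom k S F).toLinearMap.comp
      (𝒜 n).subtype)
  have hf : ∀ n (s : 𝒜 n), f n s = algebraMap S F (s : S) / t ^ n := fun n s => by
    rw [div_eq_mul_inv]
    rfl
  have hmul : ∀ {i j : ℕ} (a : 𝒜 i) (b : 𝒜 j),
      f (i + j) (GradedMonoid.GMul.mul (A := fun n => 𝒜 n) a b) = f i a * f j b := by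
    intro i j a b
    have h1 : ((GradedMonoid.GMul.mul (A := fun n => 𝒜 n) a b : 𝒜 (i + j)) : S) = (a : S) * b :=
      rfl
    rw [hf, hf, hf, h1, map_mul, pow_add, div_mul_div_comm]
  have hone : f 0 (GradedMonoid.GOne.one (A := fun n => 𝒜 n)) = 1 := by
    rw [hf]
    simp
  let g : (⨁ n, 𝒜 n) →ₐ[k] F := DirectSum.toAlgebra k (fun n => 𝒜 n) f hone (fun a b => hmul a b)
  refine ⟨g.comp (decomposeAlgEquiv 𝒜).toAlgHom, fun n s hs => ?_⟩
  have h2 : decompose 𝒜 s = DirectSum.of (fun n => 𝒜 n) n ⟨s, hs⟩ := decompose_of_mem 𝒜 hs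
  change g (decompose 𝒜 s) = _
  rw [h2, ← hf n ⟨s, hs⟩]
  exact DirectSum.toSemiring_of (fun i => (f i).toAddMonoidHom) hone (fun a b => hmul a b) n ⟨s, hs⟩

/-- Elements of the image are values of forms of a given large degree. -/
lemma exists_form (t : S) (ht1 : t ∈ 𝒜 1) (ht : algebraMap S F t ≠ 0) (ξ : S →ₐ[k] F)
    (hξ : ∀ n, ∀ s ∈ 𝒜 n, ξ s = algebraMap S F s / algebraMap S F t ^ n) (a : S) :
    ∃ N, ∀ m, N ≤ m → ∃ b ∈ 𝒜 m, ξ b = ξ a := by
  classical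
  have hξt : ξ t = 1 := by
    rw [hξ 1 t ht1, pow_one, div_self ht]
  refine DirectSum.Decomposition.inductionOn 𝒜 (motive := fun a => ∃ N, ∀ m, N ≤ m →
    ∃ b ∈ 𝒜 m, ξ b = ξ a) ⟨0, fun m _ => ⟨0, zero_mem _, rfl⟩⟩ (fun {i} a => ?_)
    (fun a b ha hb => ?_) a
  · refine ⟨i, fun m hm => ⟨a * t ^ (m - i), ?_, ?_⟩⟩
    · have h1 : t ^ (m - i) ∈ 𝒜 (m - i) := by
        have h2 := SetLike.pow_mem_graded (m - i) ht1
        rwa [smul_eq_mul, mul_one] at h2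
      have h3 := SetLike.mul_mem_graded a.2 h1
      rwa [Nat.add_sub_cancel' hm] at h3
    · rw [map_mul, map_pow, hξt, one_pow, mul_one]
  · obtain ⟨N, hN⟩ := ha
    obtain ⟨M, hM⟩ := hb
    refine ⟨max N M, fun m hm => ?_⟩
    obtain ⟨a', ha', h1⟩ := hN m ((le_max_left _ _).trans hm)
    obtain ⟨b', hb', h2⟩ := hM m ((le_max_right _ _).trans hm)
    exact ⟨a' + b', add_mem ha' hb', by rw [map_add, map_add, h1, h2]⟩

/-- The fractions of degree zero. -/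
lemma exists_frac [IsDomain S] (t : S) (ht1 : t ∈ 𝒜 1) (ht : algebraMap S F t ≠ 0)
    (ξ : S →ₐ[k] F) (hξ : ∀ n, ∀ s ∈ 𝒜 n, ξ s = algebraMap S F s / algebraMap S F t ^ n) (z : F)
    (hz : z ∈ IntermediateField.adjoin k (Set.range ξ)) :
    ∃ n, ∃ s ∈ 𝒜 n, ∃ t ∈ 𝒜 n, ξ t ≠ 0 ∧ z = ξ s / ξ t := by
  obtain ⟨a, ha, b, hb, rfl⟩ := IntermediateField.mem_adjoin_iff_div.1 hz
  have h1 : Algebra.adjoin k (Set.range ξ) = ξ.range := by
    rw [← AlgHom.coe_range]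
    exact Algebra.adjoin_eq _
  rw [h1] at ha hb
  obtain ⟨a, rfl⟩ := ha
  obtain ⟨b, rfl⟩ := hb
  by_cases hb0 : ξ b = 0
  · refine ⟨1, 0, zero_mem _, t, ht1, ?_, ?_⟩
    · rw [hξ 1 t ht1, pow_one, div_self ht]
      exact one_ne_zero
    · change ξ a / ξ b = _
      rw [hb0, div_zero, map_zero, zero_div]
  · obtain ⟨N, hN⟩ := exists_form 𝒜 t ht1 ht ξ hξ a
    obtain ⟨M, hM⟩ := exists_form 𝒜 t ht1 ht ξ hξ b
    obtain ⟨a', ha', h1⟩ := hN (max N M) (le_max_left _ _)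
    obtain ⟨b', hb', h2⟩ := hM (max N M) (le_max_right _ _)
    refine ⟨max N M, a', ha', b', hb', by rwa [h2], ?_⟩
    rw [h1, h2]
    rfl

end gen

end Pool.Agent.KS6_21.Q
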