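import Pool.Agent.KS6_21.Q.Hom
import Pool.Agent.KS6_21.Q.Gen
import Pool.Agent.KS6_21.Q.Core

/-!
Intersections of two quadrics.
-/

set_option autoImplicit false
set_option linter.unusedVariables false
set_option linter.unusedSectionVars false

open MvPolynomial Module AlgebraicGeometry CategoryTheory Pool.Agent.W558 Pool.Agent.N98
  Pool.Agent.KS6_21.P1

namespace Pool.Agent.KS6_21.Q

section final

variable {k : Type} [Field k]

/-- Homogeneous polynomials of degree `d`, at elements of degree one. -/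
lemma aeval_mem {S : Type} [CommRing S] [Algebra k S] (𝒜 : ℕ → Submodule k S) [GradedAlgebra 𝒜]
    {n : ℕ} (φ : MvPolynomial (Fin n) k →ₐ[k] S) (hφ1 : ∀ i, φ (X i) ∈ 𝒜 1)
    (g : MvPolynomial (Fin n) k) (d : ℕ) (hg : g.IsHomogeneous d) : φ g ∈ 𝒜 d := by
  classical
  rw [g.as_sum, map_sum]
  refine sum_mem fun m hm => ?_
  have h1 : m.degree = d := by
    have h2 := hg (mem_support_iff.1 hm)
    rwa [Finsupp.degree_eq_weight_one]
  rw [monomial_eq, map_mul]
  have h3 : φ (C (coeff m g)) = algebraMap k S (coeff m g) := φ.commutes _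
  rw [h3, ← Algebra.smul_def]
  refine Submodule.smul_mem _ _ ?_
  rw [Finsupp.prod, map_prod]
  have h4 : ∏ i ∈ m.support, φ (X i ^ m i) ∈ 𝒜 (∑ i ∈ m.support, m i) := by
    refine SetLike.prod_mem_graded _ _ _ fun i _ => ?_
    rw [map_pow]
    have h5 := SetLike.pow_mem_graded (m i) (hφ1 i)
    rwa [smul_eq_mul, mul_one] at h5
  rwa [← h1]

/-- The forms of degree one are the values of the linear forms. -/
lemma deg_one {S : Type} [CommRing S] [Algebra k S] (𝒜 : ℕ → Submodule k S) [GradedAlgebra 𝒜]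
    {n : ℕ} (φ : MvPolynomial (Fin n) k →ₐ[k] S) (hφ : Function.Surjective φ)
    (hφ1 : ∀ i, φ (X i) ∈ 𝒜 1) : 𝒜 1 = Submodule.span k (Set.range fun i => φ (X i)) := by
  classical
  apply le_antisymm
  · intro s hs
    obtain ⟨g, rfl⟩ := hφ s
    have h1 : φ g = φ (homogeneousComponent 1 g) := by
      have h2 : ∀ N, 1 ≤ N → (DirectSum.decompose 𝒜 (φ (∑ d ∈ Finset.range (N + 1),
          homogeneousComponent d g)) 1 : S) = φ (homogeneousComponent 1 g) := by
        intro N hN
        rw [map_sum, DirectSum.decompose_sum, DFinsupp.finsetSum_apply,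
          AddSubmonoidClass.coe_finsetSum, Finset.sum_eq_single 1]
        · exact DirectSum.decompose_of_mem_same 𝒜 (aeval_mem 𝒜 φ hφ1 _ 1
            (homogeneousComponent_isHomogeneous 1 g))
        · intro d _ hd
          exact DirectSum.decompose_of_mem_ne 𝒜 (aeval_mem 𝒜 φ hφ1 _ d
            (homogeneousComponent_isHomogeneous d g)) hd
        · intro h
          exact absurd (Finset.mem_range.2 (by omega)) h
      have h3 : ∑ d ∈ Finset.range (g.totalDegree + 1 + 1), homogeneousComponent d g = g := by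
        rw [Finset.sum_range_succ, sum_homogeneousComponent,
          homogeneousComponent_eq_zero _ _ (Nat.lt_succ_self _), add_zero]
      have h4 := h2 (g.totalDegree + 1) (by omega)
      rw [h3, DirectSum.decompose_of_mem_same 𝒜 hs] at h4
      exact h4
    rw [h1]
    have h5 : homogeneousComponent 1 g ∈ homogeneousSubmodule (Fin n) k 1 :=
      homogeneousComponent_isHomogeneous 1 g
    rw [homogeneousSubmodule_one_eq_span_X] at h5
    have h6 : φ (homogeneousComponent 1 g) ∈ (Submodule.span k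
        (Set.range (X : Fin n → MvPolynomial (Fin n) k))).map φ.toLinearMap := ⟨_, h5, rfl⟩
    rw [Submodule.map_span, ← Set.range_comp] at h6
    exact h6
  · rw [Submodule.span_le]
    rintro _ ⟨i, rfl⟩
    exact hφ1 i

/-- If `Proj` is nonempty then there are forms of degree one. -/
lemma one_ne_bot {S : Type} [CommRing S] [Algebra k S] (𝒜 : ℕ → Submodule k S) [GradedAlgebra 𝒜]
    {n : ℕ} (φ : MvPolynomial (Fin n) k →ₐ[k] S) (hφ : Function.Surjective φ)
    (hφ1 : ∀ i, φ (X i) ∈ 𝒜 1) (x : Proj 𝒜) : 𝒜 1 ≠ ⊥ := by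
  intro h
  have h1 : ∀ s : S, s ∈ 𝒜 0 := by
    intro s
    obtain ⟨g, rfl⟩ := hφ s
    induction g using MvPolynomial.induction_on with
    | C a =>
      have h2 : φ (C a) = algebraMap k S a := φ.commutes a
      rw [h2, Algebra.algebraMap_eq_smul_one]
      exact Submodule.smul_mem _ _ SetLike.GradedOne.one_mem
    | add f g hf hg =>
      rw [map_add]
      exact add_mem hf hg
    | mul_X f i hf =>
      have h3 : φ (X i) = 0 := by
        have h4 := hφ1 i
        rwa [h, Submodule.mem_bot] at h4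
      rw [map_mul, h3, mul_zero]
      exact zero_mem _
  have h5 : ProjectiveSpectrum 𝒜 := x
  refine h5.not_irrelevant_le ?_
  intro s hs
  have h6 : s = 0 := by
    have h7 : (DirectSum.decompose 𝒜 s 0 : S) = 0 := hs
    rwa [DirectSum.decompose_of_mem_same 𝒜 (h1 s)] at h7
  rw [h6]
  exact zero_mem _

/-- **Intersections of two quadrics.** -/
theorem two_quadrics (p : ℕ) [Fact p.Prime] (hp : p ≠ 2) [IsAlgClosed k] [CharP k p]
    {n : ℕ} (q : Fin 2 → MvPolynomial (Fin n) k) (hq : ∀ l, (q l).IsHomogeneous 2)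
    (S : Type) [CommRing S] [IsDomain S] [Algebra k S] (𝒜 : ℕ → Submodule k S) [GradedAlgebra 𝒜]
    (φ : MvPolynomial (Fin n) k →ₐ[k] S) (hφ : Function.Surjective φ) (hφ1 : ∀ i, φ (X i) ∈ 𝒜 1)
    (hmin : RingHom.ker φ ∈ (Ideal.span (Set.range q)).minimalPrimes) (hS1 : 𝒜 1 ≠ ⊥)
    (U : (Proj 𝒜).Opens) (hU : (U : Set (Proj 𝒜)).Nonempty) :
    IsResolvableVariety (k := k) (X := U.toScheme)
      (U.ι ≫ Proj.toSpecZero 𝒜 ≫ Spec.map (CommRingCat.ofHom (algebraMap k (𝒜 0)))) := by
  classical
  have h2 : (2 : k) ≠ 0 := by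
    intro h
    have h3 : p ∣ 2 := by
      rw [← CharP.cast_eq_zero_iff k p]
      exact_mod_cast h
    exact hp ((Nat.prime_dvd_prime_iff_eq Fact.out Nat.prime_two).1 h3)
  obtain ⟨ι, hι, hdι, s, r, α, hr, hα, hαs, hαq⟩ := pencil_coords h2 q hq
  have h𝒜 := deg_one 𝒜 φ hφ hφ1
  let y : ι → S := fun i => φ (α (X i))
  have hy1 : ∀ i, y i ∈ 𝒜 1 := by
    intro i
    rw [h𝒜]
    have h3 : φ (α (X i)) ∈ (Submodule.span k
        (Set.range (X : Fin n → MvPolynomial (Fin n) k))).map φ.toLinearMap := ⟨_, hα i, rfl⟩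
    rw [Submodule.map_span, ← Set.range_comp] at h3
    exact h3
  have hyφ : ∀ g, φ (α g) = aeval y g := by
    intro g
    have h3 : φ.comp α.toAlgHom = aeval y := MvPolynomial.algHom_ext fun i => by
      rw [aeval_X]
      rfl
    exact DFunLike.congr_fun h3 g
  have hspan : 𝒜 1 = Submodule.span k (Set.range y) := by
    apply le_antisymm
    · rw [h𝒜, Submodule.span_le]
      rintro _ ⟨j, rfl⟩
      have h3 : φ (X j) = φ (α (α.symm (X j))) := by rw [AlgEquiv.apply_symm_apply]
      have h4 : φ (α (α.symm (X j))) ∈ (Submodule.span k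
        (Set.range (X : ι → MvPolynomial ι k))).map (φ.comp α.toAlgHom).toLinearMap :=
          ⟨_, hαs j, rfl⟩
      rw [Submodule.map_span, ← Set.range_comp] at h4
      change φ (X j) ∈ _
      rw [h3]
      exact h4
    · rw [Submodule.span_le]
      rintro _ ⟨i, rfl⟩
      exact hy1 i
  have hj0 : ∃ j0, y j0 ≠ 0 := by
    by_contra hcon
    push Not at hcon
    apply hS1
    rw [hspan, Submodule.span_eq_bot]
    rintro _ ⟨i, rfl⟩
    exact hcon i
  obtain ⟨j0, hj0⟩ := hj0
  let F := FractionRing S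
  have hinj : Function.Injective (algebraMap S F) := IsFractionRing.injective S F
  let t : F := algebraMap S F (y j0)
  have ht : t ≠ 0 := fun h => hj0 (hinj (by rw [map_zero]; exact h))
  obtain ⟨ξ0, hξ0⟩ := exists_generic 𝒜 (F := F) t ht
  let K : IntermediateField k F := IntermediateField.adjoin k (Set.range ξ0)
  have hξK : ∀ x, ξ0 x ∈ K := fun x => IntermediateField.subset_adjoin k _ ⟨x, rfl⟩
  let ξ : S →ₐ[k] K := ξ0.codRestrict K.toSubalgebra hξK
  have hξ : ∀ x, (ξ x : F) = ξ0 x := fun x => rfl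
  let z : ι → K := fun i => ξ (y i)
  have hz0 : z j0 = 1 := by
    apply Subtype.ext
    change ξ0 (y j0) = 1
    rw [hξ0 1 _ (hy1 j0), pow_one, div_self ht]
  have hzt : ∀ i, algebraMap K F (z i) * t = algebraMap S F (y i) := by
    intro i
    change ξ0 (y i) * t = _
    rw [hξ0 1 _ (hy1 i), pow_one, div_mul_cancel₀ _ ht]
  have hgen : IntermediateField.adjoin k (Set.range z) = ⊤ := by
    apply IntermediateField.lift_injective
    rw [IntermediateField.lift_adjoin, IntermediateField.lift_top]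
    apply le_antisymm
    · rw [IntermediateField.adjoin_le_iff]
      rintro _ ⟨_, ⟨i, rfl⟩, rfl⟩
      exact (z i).2
    · rw [IntermediateField.adjoin_le_iff]
      rintro _ ⟨x, rfl⟩
      obtain ⟨g, rfl⟩ := hφ x
      have h3 : φ g = aeval y (α.symm g) := by
        rw [← hyφ, AlgEquiv.apply_symm_apply]
      rw [h3]
      have h4 : ξ0 (aeval y (α.symm g)) = aeval (fun i => (z i : F)) (α.symm g) := by
        have h5 : ξ0.comp (aeval y) = aeval (fun i => (z i : F)) :=
          MvPolynomial.algHom_ext fun i => by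
            rw [AlgHom.comp_apply, aeval_X, aeval_X]
            rfl
        exact DFunLike.congr_fun h5 _
      rw [h4]
      have h6 : aeval (fun i => (z i : F)) (α.symm g) ∈
          Algebra.adjoin k (Set.range fun i => (z i : F)) := by
        rw [Algebra.adjoin_range_eq_range_aeval]
        exact ⟨_, rfl⟩
      have h7 : (Subtype.val '' Set.range z : Set F) = Set.range fun i => (z i : F) := by
        rw [← Set.range_comp]
        rfl
      rw [h7]
      exact IntermediateField.algebra_adjoin_le_adjoin k _ h6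
  have hfrac := exists_frac 𝒜 (y j0) (hy1 j0) ht ξ0 hξ0
  have hMd := md_sparse p hp (F := F) s r hr z j0 hz0 hgen t ht
    (Submodule.span k (Set.range fun l => α.symm (q l))) (by
      rw [Submodule.span_le]
      rintro _ ⟨l, rfl⟩
      exact hαq l) (by
    have h3 : (aeval (fun i => algebraMap K F (z i) * t) : MvPolynomial ι k →ₐ[k] F) =
        ((IsScalarTower.toAlgHom k S F).comp φ).comp α.toAlgHom :=
      MvPolynomial.algHom_ext fun i => by
        rw [aeval_X, hzt]
        rfl
    have h4 : ∀ g, aeval (fun i => algebraMap K F (z i) * t) g = 0 ↔ φ (α g) = 0 := by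
      intro g
      rw [h3]
      change algebraMap S F (φ (α g)) = 0 ↔ _
      rw [map_eq_zero_iff _ hinj]
    refine ⟨⟨RingHom.ker_isPrime _, ?_⟩, ?_⟩
    · rw [Ideal.span_le]
      intro g hg
      refine Submodule.span_induction (p := fun g _ => g ∈ RingHom.ker (aeval fun i =>
        algebraMap K F (z i) * t : MvPolynomial ι k →ₐ[k] F)) ?_ (zero_mem _)
        (fun a b _ _ ha hb => add_mem ha hb) (fun c a _ ha => ?_) hg
      · rintro _ ⟨l, rfl⟩
        rw [RingHom.mem_ker, h4, AlgEquiv.apply_symm_apply, ← RingHom.mem_ker]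
        exact hmin.1.2 (Ideal.subset_span ⟨l, rfl⟩)
      · rw [MvPolynomial.smul_eq_C_mul]
        exact Ideal.mul_mem_left _ _ ha
    · intro 𝔮 hq1 hle g hg
      have hq2 := hq1.1
      have h5 := hmin.2 (y := Ideal.comap α.symm 𝔮) ⟨Ideal.comap_isPrime α.symm 𝔮, by
        rw [Ideal.span_le]
        rintro _ ⟨l, rfl⟩
        exact hq1.2 (Ideal.subset_span (Submodule.subset_span ⟨l, rfl⟩))⟩ (by
        intro g hg
        have h6 := hle hg
        rw [RingHom.mem_ker, h4, AlgEquiv.apply_symm_apply] at h6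
        exact h6)
      rw [RingHom.mem_ker, h4] at hg
      have h7 := h5 hg
      rw [Ideal.mem_comap, AlgEquiv.symm_apply_apply] at h7
      exact h7)
  let ε := Fintype.equivFin ι
  let b : Fin (Fintype.card ι) → S := fun i => y (ε.symm i)
  obtain ⟨T, I, hT, hI, M, hFr, hM⟩ := hMd.mod {i : Fin (Fintype.card ι) // ξ (b i) ≠ 0}
    (fun i => ξ (b i.1)) (fun i => Or.inl ⟨ε.symm i, rfl⟩) (fun i => i.2)
  refine Pool.Agent.N762.FP.isResolvable_of_forms 𝒜 ?_ ?_ ξ ?_ ?_ b (fun i => hy1 _) (n := 0) ?_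
    M hFr (fun i hi => hM ⟨i, hi⟩) hS1 U hU
  · rw [eq_top_iff]
    rintro x -
    obtain ⟨g, rfl⟩ := hφ x
    have h3 : φ g ∈ Algebra.adjoin k (Set.range fun i => φ (X i)) := by
      have h4 : φ = aeval fun i => φ (X i) := MvPolynomial.algHom_ext fun i => by rw [aeval_X]
      rw [Algebra.adjoin_range_eq_range_aeval, ← h4]
      exact ⟨g, rfl⟩
    refine Algebra.adjoin_mono ?_ h3
    rintro _ ⟨i, rfl⟩
    exact hφ1 i
  · rw [hspan]
    exact Submodule.fg_span (Set.finite_range _)
  · intro n x hx hx0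
    have h3 : ξ0 x = 0 := congrArg Subtype.val hx0
    rw [hξ0 n x hx, div_eq_zero_iff] at h3
    rcases h3 with h3 | h3
    · exact hinj (by rw [h3, map_zero])
    · exact absurd h3 (pow_ne_zero _ ht)
  · intro x
    obtain ⟨n, a, ha, b, hb, hb0, hx⟩ := hfrac x.1 x.2
    refine ⟨n, a, ha, b, hb, fun h => hb0 (congrArg Subtype.val h), Subtype.ext ?_⟩
    rw [hx]
    rfl
  · intro x hx
    rw [zero_add, hspan] at hx
    have h3 : Set.range b = Set.range y := ε.symm.surjective.range_comp y
    rw [h3]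
    exact Submodule.span_subset_span k S (Set.range y) hx

end final

end Pool.Agent.KS6_21.Q
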