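import Pool.Agent.KS6_21.Q.Classify

/-!
Quadratic forms and symmetric matrices; the homogeneous generic point of a graded domain.
-/

set_option autoImplicit false
set_option linter.unusedVariables false
set_option linter.unusedSectionVars false

open MvPolynomial Pointwise

namespace Pool.Agent.KS6_21.Q

/-- Quadratic forms and symmetric bilinear forms. -/
theorem quad_form {k : Type} [Field k] (h2 : (2 : k) ≠ 0) {n : ℕ} (q : MvPolynomial (Fin n) k)
    (hq : q.IsHomogeneous 2) : ∃ B : (Fin n → k) →ₗ[k] (Fin n → k) →ₗ[k] k,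
      (∀ x y, B x y = B y x) ∧
      q = ∑ i, ∑ j, C (B (Pi.single i 1) (Pi.single j 1)) * (X i * X j) := by
  classical
  have h1 : q ∈ Submodule.span k (Set.range (X : Fin n → MvPolynomial (Fin n) k) *
      Set.range (X : Fin n → MvPolynomial (Fin n) k)) := by
    rw [← Submodule.span_mul_span, ← homogeneousSubmodule_one_eq_span_X, ← pow_two,
      homogeneousSubmodule_one_pow]
    exact hq
  clear hq
  induction h1 using Submodule.span_induction with
  | mem q h =>
    obtain ⟨_, ⟨a, rfl⟩, _, ⟨b, rfl⟩, rfl⟩ := h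
    let P : Fin n → ((Fin n → k) →ₗ[k] k) := fun i => LinearMap.proj i
    let B : (Fin n → k) →ₗ[k] (Fin n → k) →ₗ[k] k :=
      LinearMap.mk₂ k (fun x y => (2 : k)⁻¹ * (x a * y b + x b * y a))
        (fun x x' y => by simp only [Pi.add_apply]; ring)
        (fun c x y => by simp only [Pi.smul_apply, smul_eq_mul]; ring)
        (fun x y y' => by simp only [Pi.add_apply]; ring)
        (fun c x y => by simp only [Pi.smul_apply, smul_eq_mul]; ring)
    refine ⟨B, fun x y => ?_, ?_⟩
    · simp only [B, LinearMap.mk₂_apply]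
      ring
    · have hB : ∀ i j, B (Pi.single i 1) (Pi.single j 1) =
          (2 : k)⁻¹ * ((if i = a then 1 else 0) * (if j = b then 1 else 0)) +
          (2 : k)⁻¹ * ((if i = b then 1 else 0) * (if j = a then 1 else 0)) := by
        intro i j
        simp only [B, LinearMap.mk₂_apply, Pi.single_apply, mul_add, @eq_comm _ a, @eq_comm _ b]
      have h3 : ∀ c d : Fin n, ∑ i, ∑ j, C ((2 : k)⁻¹ * ((if i = c then (1 : k) else 0) *
          (if j = d then (1 : k) else 0))) * (X i * X j : MvPolynomial (Fin n) k) =
            C ((2 : k)⁻¹) * (X c * X d) := by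
        intro c d
        rw [Finset.sum_eq_single c, Finset.sum_eq_single d]
        · simp
        · intro j _ hj
          simp [hj]
        · simp
        · intro i _ hi
          simp [hi]
        · simp
      simp only [hB, C_add, add_mul, Finset.sum_add_distrib, h3]
      rw [mul_comm (X b) (X a), ← add_mul, ← C_add]
      have h4 : (2 : k)⁻¹ + (2 : k)⁻¹ = 1 := by
        rw [← two_mul, mul_inv_cancel₀ h2]
      rw [h4, C_1, one_mul]
  | zero => exact ⟨0, fun x y => rfl, by simp⟩
  | add q q' _ _ h h' =>
    obtain ⟨B, hB, h⟩ := h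
    obtain ⟨B', hB', h'⟩ := h'
    refine ⟨B + B', fun x y => ?_, ?_⟩
    · rw [LinearMap.add_apply, LinearMap.add_apply, LinearMap.add_apply, LinearMap.add_apply,
        hB, hB']
    · rw [h, h']
      simp only [LinearMap.add_apply, C_add, add_mul, Finset.sum_add_distrib]
  | smul c q _ h =>
    obtain ⟨B, hB, h⟩ := h
    refine ⟨c • B, fun x y => ?_, ?_⟩
    · rw [LinearMap.smul_apply, LinearMap.smul_apply, LinearMap.smul_apply, LinearMap.smul_apply,
        hB]
    · rw [h]
      simp only [LinearMap.smul_apply, smul_eq_mul, C_mul, mul_assoc, ← Finset.mul_sum]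
      rw [MvPolynomial.smul_eq_C_mul]

lemma sum4 {M : Type} [AddCommMonoid M] {I J A B : Type} [Fintype I] [Fintype J] [Fintype A]
    [Fintype B] (F : I → J → A → B → M) :
    ∑ i, ∑ j, ∑ a, ∑ b, F i j a b = ∑ a, ∑ b, ∑ i, ∑ j, F i j a b := by
  rw [Finset.sum_congr rfl fun i _ => Finset.sum_comm, Finset.sum_comm]
  refine Finset.sum_congr rfl fun a _ => ?_
  rw [Finset.sum_congr rfl fun i _ => Finset.sum_comm, Finset.sum_comm]

/-- The coordinates in which the quadratic forms of a pencil are sparse. -/
theorem pencil_coords {k : Type} [Field k] [IsAlgClosed k] (h2 : (2 : k) ≠ 0) {n : ℕ}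
    (q : Fin 2 → MvPolynomial (Fin n) k) (hq : ∀ l, (q l).IsHomogeneous 2) :
    ∃ (ι : Type) (_ : Fintype ι) (_ : DecidableEq ι) (s : ι → ι) (r : ι → ℕ)
      (α : MvPolynomial ι k ≃ₐ[k] MvPolynomial (Fin n) k),
      (∀ i, s i = i ∨ r i < r (s i)) ∧ (∀ i, α (X i) ∈ Submodule.span k (Set.range X)) ∧
      (∀ j, α.symm (X j) ∈ Submodule.span k (Set.range X)) ∧
      ∀ l, α.symm (q l) ∈ Submodule.span k
        (Set.range fun i => (X i * X (s i) : MvPolynomial ι k)) := by
  classical
  choose B hB hqB using fun l => quad_form h2 (q l) (hq l)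
  obtain ⟨ι, hι, hdι, e, s, r, hr, hs⟩ := sparse_of_symm h2 n (Fin n → k) B hB (by simp)
  let Y : ι → MvPolynomial (Fin n) k := fun i => ∑ j, C (e.repr (Pi.single j 1) i) * X j
  let Z : Fin n → MvPolynomial ι k := fun j => ∑ i, C (e i j) * X i
  have hYZ : (aeval Y).comp (aeval Z) = AlgHom.id k (MvPolynomial (Fin n) k) := by
    apply MvPolynomial.algHom_ext
    intro j
    rw [AlgHom.comp_apply, aeval_X]
    simp only [Z, Y, map_sum, map_mul, aeval_X, aeval_C, MvPolynomial.algebraMap_eq,
      Finset.mul_sum, AlgHom.id_apply]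
    rw [Finset.sum_comm]
    have h1 : ∀ j', ∑ i, C (e i j) * (C (e.repr (Pi.single j' 1) i) * X j') =
        (C ((Pi.single j' 1 : Fin n → k) j) * X j' : MvPolynomial (Fin n) k) := by
      intro j'
      have h2 := congrFun (e.sum_repr (Pi.single j' 1)) j
      rw [← h2, Finset.sum_apply, map_sum, Finset.sum_mul]
      refine Finset.sum_congr rfl fun i _ => ?_
      rw [Pi.smul_apply, smul_eq_mul, C_mul]
      ring
    rw [Finset.sum_congr rfl fun j' _ => h1 j', Finset.sum_eq_single j]
    · simp
    · intro j' _ hj'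
      rw [Pi.single_apply, if_neg hj'.symm, C_0, zero_mul]
    · simp
  have hZY : (aeval Z).comp (aeval Y) = AlgHom.id k (MvPolynomial ι k) := by
    apply MvPolynomial.algHom_ext
    intro i
    rw [AlgHom.comp_apply, aeval_X]
    simp only [Z, Y, map_sum, map_mul, aeval_X, aeval_C, MvPolynomial.algebraMap_eq,
      Finset.mul_sum, AlgHom.id_apply]
    rw [Finset.sum_comm]
    have h1 : ∀ i', ∑ j, C (e.repr (Pi.single j 1) i) * (C (e i' j) * X i') =
        (C (e.repr (e i') i) * X i' : MvPolynomial ι k) := by
      intro i'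
      have h2 : e i' = ∑ j, e i' j • (Pi.single j 1 : Fin n → k) := by
        funext j
        simp [Finset.sum_apply, Pi.single_apply]
      have h3 : e.repr (e i') i = ∑ j, e i' j * e.repr (Pi.single j 1) i := by
        conv_lhs => rw [h2]
        rw [map_sum, Finsupp.finsetSum_apply]
        refine Finset.sum_congr rfl fun j _ => ?_
        rw [map_smul, Finsupp.smul_apply, smul_eq_mul]
      rw [h3, map_sum, Finset.sum_mul]
      refine Finset.sum_congr rfl fun j _ => ?_
      rw [C_mul]
      ring
    rw [Finset.sum_congr rfl fun j' _ => h1 j', Finset.sum_eq_single i]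
    · simp
    · intro j' _ hj'
      rw [Module.Basis.repr_self, Finsupp.single_apply, if_neg hj', C_0, zero_mul]
    · simp
  refine ⟨ι, hι, hdι, s, r, AlgEquiv.ofAlgHom (aeval Y) (aeval Z) hYZ hZY, hr, ?_, ?_, ?_⟩
  · intro i
    change aeval Y (X i) ∈ _
    rw [aeval_X]
    refine sum_mem fun j _ => ?_
    rw [← MvPolynomial.smul_eq_C_mul]
    exact Submodule.smul_mem _ _ (Submodule.subset_span ⟨j, rfl⟩)
  · intro j
    change aeval Z (X j) ∈ _
    rw [aeval_X]
    refine sum_mem fun i _ => ?_
    rw [← MvPolynomial.smul_eq_C_mul]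
    exact Submodule.smul_mem _ _ (Submodule.subset_span ⟨i, rfl⟩)
  · intro l
    change aeval Z (q l) ∈ _
    have h1 : aeval Z (q l) = ∑ a, ∑ b, C (B l (e a) (e b)) * (X a * X b) := by
      conv_lhs => rw [hqB l]
      simp only [map_sum, map_mul, aeval_X, aeval_C, MvPolynomial.algebraMap_eq]
      have h2 : ∀ a, e a = ∑ j, e a j • (Pi.single j 1 : Fin n → k) := by
        intro a
        funext j
        simp [Finset.sum_apply, Pi.single_apply]
      have h3 : ∀ a b, B l (e a) (e b) = ∑ i, ∑ j, e a i * e b j *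
          B l (Pi.single i 1) (Pi.single j 1) := by
        intro a b
        conv_lhs => rw [h2 a, h2 b]
        simp only [map_sum, LinearMap.sum_apply, map_smul, LinearMap.smul_apply, smul_eq_mul]
        simp only [Finset.mul_sum]
        rw [Finset.sum_comm]
        refine Finset.sum_congr rfl fun i _ => Finset.sum_congr rfl fun j _ => ?_
        ring
      have h4 : ∀ a b, (C (B l (e a) (e b)) * (X a * X b) : MvPolynomial ι k) =
          ∑ i, ∑ j, C (B l (Pi.single i 1) (Pi.single j 1)) *
            ((C (e a i) * X a) * (C (e b j) * X b)) := by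
        intro a b
        simp only [h3, map_sum, Finset.sum_mul]
        refine Finset.sum_congr rfl fun i _ => Finset.sum_congr rfl fun j _ => ?_
        rw [C_mul, C_mul]
        ring
      have h5 : ∀ i j, (C (B l (Pi.single i 1) (Pi.single j 1)) * (Z i * Z j) :
          MvPolynomial ι k) = ∑ a, ∑ b, C (B l (Pi.single i 1) (Pi.single j 1)) *
            ((C (e a i) * X a) * (C (e b j) * X b)) := by
        intro i j
        simp only [Z]
        rw [Finset.sum_mul_sum, Finset.mul_sum]
        refine Finset.sum_congr rfl fun a _ => ?_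
        rw [Finset.mul_sum]
      rw [Finset.sum_congr rfl fun i _ => Finset.sum_congr rfl fun j _ => h5 i j,
        Finset.sum_congr rfl fun a _ => Finset.sum_congr rfl fun b _ => h4 a b, sum4]
    rw [h1]
    refine sum_mem fun a _ => sum_mem fun b _ => ?_
    by_cases h0 : B l (e a) (e b) = 0
    · rw [h0, C_0, zero_mul]
      exact zero_mem _
    · rw [← MvPolynomial.smul_eq_C_mul]
      refine Submodule.smul_mem _ _ ?_
      rcases hs l a b h0 with h | h
      · rw [h]
        exact Submodule.subset_span ⟨a, rfl⟩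
      · rw [h, mul_comm]
        exact Submodule.subset_span ⟨b, rfl⟩

end Pool.Agent.KS6_21.Q
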