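import Pool.Agent.KS6_21.Q.Sparse

/-!
Singular pencils of symmetric bilinear forms: Kronecker blocks.
-/

set_option autoImplicit false
set_option linter.unusedVariables false
set_option linter.unusedSectionVars false

universe u v

open Module

namespace Pool.Agent.KS6_21.Q

variable {k : Type u} [Field k] {V : Type v} [AddCommGroup V] [Module k V]

/-- A polynomial vector `∑ i, x i * t ^ i` of degree at most `d` in the kernel of `b 0 + t * b 1`, with
`x 0 ≠ 0`. -/
def Sol (b : Fin 2 → V →ₗ[k] V →ₗ[k] k) (d : ℕ) (x : ℕ → V) : Prop :=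
  x 0 ≠ 0 ∧ (∀ i, d < i → x i = 0) ∧ (∀ v, b 0 (x 0) v = 0) ∧
    ∀ i v, b 0 (x (i + 1)) v + b 1 (x i) v = 0

/-- Singular pencils have polynomial solutions. -/
theorem exists_sol [Infinite k] [FiniteDimensional k V] (b : Fin 2 → V →ₗ[k] V →ₗ[k] k)
    (hdeg : ∀ t : k, ∃ v : V, v ≠ 0 ∧ ∀ w, b 0 v w + t * b 1 v w = 0) :
    ∃ (d : ℕ) (x : ℕ → V), Sol b d x := by
  classical
  let e := Module.finBasis k V
  let M0 : Matrix (Fin (finrank k V)) (Fin (finrank k V)) k := Matrix.of fun i j => b 0 (e j) (e i)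
  let M1 : Matrix (Fin (finrank k V)) (Fin (finrank k V)) k := Matrix.of fun i j => b 1 (e j) (e i)
  let M : Matrix (Fin (finrank k V)) (Fin (finrank k V)) (Polynomial k) :=
    Matrix.of fun i j => Polynomial.C (M0 i j) + Polynomial.X * Polynomial.C (M1 i j)
  have hsum : ∀ (l : Fin 2) (c : Fin (finrank k V) → k) (i : Fin (finrank k V)),
      b l (∑ j, c j • e j) (e i) = ∑ j, c j * b l (e j) (e i) := by
    intro l c i
    rw [map_sum, LinearMap.sum_apply]
    refine Finset.sum_congr rfl fun j _ => ?_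
    rw [map_smul, LinearMap.smul_apply, smul_eq_mul]
  have hdet : M.det = 0 := by
    apply Polynomial.funext
    intro t
    rw [Polynomial.eval_zero]
    have h1 : Polynomial.eval t M.det = (M.map (Polynomial.eval t)).det := by
      have h2 := RingHom.map_det (Polynomial.evalRingHom t) M
      rw [Polynomial.coe_evalRingHom] at h2
      rw [h2]
      rfl
    rw [h1]
    apply Matrix.exists_mulVec_eq_zero_iff.1
    obtain ⟨v, hv, hv'⟩ := hdeg t
    refine ⟨fun j => e.repr v j, ?_, ?_⟩
    · intro h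
      apply hv
      apply e.repr.injective
      rw [map_zero]
      ext j
      exact congrFun h j
    · funext i
      rw [Matrix.mulVec, dotProduct, Pi.zero_apply]
      have h3 := hv' (e i)
      have h4 : v = ∑ j, e.repr v j • e j := (e.sum_repr v).symm
      rw [h4, hsum, hsum, Finset.mul_sum, ← Finset.sum_add_distrib] at h3
      rw [← h3]
      refine Finset.sum_congr rfl fun j _ => ?_
      simp [M, M0, M1]
      ring
  obtain ⟨u, hu, hu'⟩ := Matrix.exists_mulVec_eq_zero_iff.2 hdet
  let x : ℕ → V := fun i => ∑ j, (u j).coeff i • e j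
  have hrow : ∀ i, ∑ j, (Polynomial.C (M0 i j) + Polynomial.X * Polynomial.C (M1 i j)) * u j = 0 := by
    intro i
    have h3 := congrFun hu' i
    rw [Matrix.mulVec, dotProduct, Pi.zero_apply] at h3
    exact h3
  have hext : ∀ (l : Fin 2) (y : V), (∀ i, b l y (e i) = 0) → ∀ v, b l y v = 0 := by
    intro l y h v
    have h4 : b l y = 0 := e.ext fun i => by rw [h i, LinearMap.zero_apply]
    rw [h4, LinearMap.zero_apply]
  have hx0 : ∀ v, b 0 (x 0) v = 0 := by
    apply hext
    intro i
    rw [hsum]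
    have h3 := congrArg (fun P : Polynomial k => P.coeff 0) (hrow i)
    simp only [Polynomial.finsetSum_coeff, Polynomial.coeff_zero] at h3
    rw [← h3]
    refine Finset.sum_congr rfl fun j _ => ?_
    rw [add_mul, Polynomial.coeff_add, mul_assoc, Polynomial.coeff_X_mul_zero, add_zero,
      Polynomial.coeff_C_mul]
    exact mul_comm _ _
  have hxs : ∀ i v, b 0 (x (i + 1)) v + b 1 (x i) v = 0 := by
    intro n v
    have h5 : b 0 (x (n + 1)) + b 1 (x n) = 0 := by
      apply e.ext
      intro i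
      rw [LinearMap.add_apply, LinearMap.zero_apply, hsum, hsum, ← Finset.sum_add_distrib]
      have h3 := congrArg (fun P : Polynomial k => P.coeff (n + 1)) (hrow i)
      simp only [Polynomial.finsetSum_coeff, Polynomial.coeff_zero] at h3
      rw [← h3]
      refine Finset.sum_congr rfl fun j _ => ?_
      rw [add_mul, Polynomial.coeff_add, mul_assoc, Polynomial.coeff_X_mul,
        Polynomial.coeff_C_mul, Polynomial.coeff_C_mul]
      simp only [M0, M1, Matrix.of_apply]
      ring
    rw [← LinearMap.add_apply, h5, LinearMap.zero_apply]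
  obtain ⟨n1, hn1⟩ : ∃ n, x n ≠ 0 := by
    by_contra hcon
    push Not at hcon
    apply hu
    funext j
    ext n
    have h6 := hcon n
    have h7 := congrArg (fun y => e.repr y j) h6
    simp only [x, map_sum, map_smul, Basis.repr_self, map_zero, Finsupp.coe_zero,
      Pi.zero_apply] at h7
    rw [Finsupp.finsetSum_apply, Finset.sum_eq_single j] at h7
    · simpa using h7
    · intro j' _ hj'
      simp [hj']
    · intro h
      exact absurd (Finset.mem_univ j) h
  obtain ⟨D, hD⟩ : ∃ D, ∀ i, D < i → x i = 0 := by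
    refine ⟨Finset.univ.sup fun j => (u j).natDegree, fun i hi => ?_⟩
    refine Finset.sum_eq_zero fun j _ => ?_
    rw [Polynomial.coeff_eq_zero_of_natDegree_lt (lt_of_le_of_lt
      (Finset.le_sup (f := fun j => (u j).natDegree) (Finset.mem_univ j)) hi), zero_smul]
  have hex : ∃ n, x n ≠ 0 := ⟨n1, hn1⟩
  let n0 := Nat.find hex
  refine ⟨D, fun i => x (i + n0), ?_, ?_, ?_, ?_⟩
  · show x (0 + n0) ≠ 0
    rw [zero_add]
    exact Nat.find_spec hex
  · intro i hi
    exact hD _ (by omega)
  · intro v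
    show b 0 (x (0 + n0)) v = 0
    rw [zero_add]
    rcases Nat.eq_zero_or_pos n0 with h | h
    · rw [h]
      exact hx0 v
    · obtain ⟨n', hn'⟩ := Nat.exists_eq_succ_of_ne_zero h.ne'
      have h8 := hxs n' v
      have h9 : x n' = 0 := by
        by_contra h10
        exact Nat.find_min hex (show n' < n0 by omega) h10
      rw [h9, map_zero, LinearMap.zero_apply, add_zero] at h8
      rw [hn']
      exact h8
  · intro i v
    have h8 := hxs (i + n0) v
    show b 0 (x (i + 1 + n0)) v + b 1 (x (i + n0)) v = 0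
    rw [show i + 1 + n0 = i + n0 + 1 by omega]
    exact h8

section block

variable [FiniteDimensional k V] (b : Fin 2 → V →ₗ[k] V →ₗ[k] k)
  (hsym : ∀ l x y, b l x y = b l y x)

include hsym in
lemma x_iso {d : ℕ} {x : ℕ → V} (hx : Sol b d x) (i j : ℕ) :
    b 0 (x i) (x j) = 0 ∧ b 1 (x i) (x j) = 0 := by
  have h0 : ∀ i j, b 0 (x i) (x j) = 0 := by
    intro i
    induction i with
    | zero => intro j; exact hx.2.2.1 _
    | succ i ih =>
      intro j
      have h1 := hx.2.2.2 i (x j)
      have h2 := hx.2.2.2 j (x i)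
      have h3 := ih (j + 1)
      rw [hsym 1 (x j) (x i)] at h2
      rw [hsym 0 (x i) (x (j + 1))] at h3
      rw [h3, zero_add] at h2
      rw [h2, add_zero] at h1
      exact h1
  refine ⟨h0 i j, ?_⟩
  have h1 := hx.2.2.2 i (x j)
  rw [h0, zero_add] at h1
  exact h1

/-- Extension of a finite family by zero. -/
def ex {n : ℕ} (Y : Fin n → V) (i : ℕ) : V := if h : i < n then Y ⟨i, h⟩ else 0

lemma ex_lt {n : ℕ} (Y : Fin n → V) {i : ℕ} (h : i < n) : ex Y i = Y ⟨i, h⟩ := dif_pos h

lemma ex_ge {n : ℕ} (Y : Fin n → V) {i : ℕ} (h : n ≤ i) : ex Y i = 0 := dif_neg (by omega)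

/-- The conditions on the second half of the block. -/
noncomputable def psi (n : ℕ) : (Fin n → V) →ₗ[k] (Fin n → (V →ₗ[k] k)) where
  toFun Y j := if (j : ℕ) + 1 < n then b 0 (Y j) + b 1 (ex Y ((j : ℕ) + 1)) else 0
  map_add' Y Z := by
    funext j
    by_cases h : (j : ℕ) + 1 < n
    · simp only [if_pos h, Pi.add_apply, ex_lt _ h, map_add]
      abel
    · simp only [if_neg h, Pi.add_apply, add_zero]
  map_smul' c Y := by
    funext j
    by_cases h : (j : ℕ) + 1 < n
    · simp only [if_pos h, Pi.smul_apply, ex_lt _ h, map_smul, RingHom.id_apply, smul_add]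
    · simp only [if_neg h, Pi.smul_apply, smul_zero, RingHom.id_apply]

include hsym in
/-- The second half of the block, by duality and minimality of the degree. -/
theorem exists_Y {d : ℕ} {x : ℕ → V} (hx : Sol b (d + 1) x) (hmin : ∀ x', ¬ Sol b d x') :
    ∃ Y : Fin (d + 1) → V, (∀ j : ℕ, j + 1 < d + 1 → ∀ v,
      b 0 (ex Y j) v + b 1 (ex Y (j + 1)) v = 0) ∧ b 0 (x 1) (Y 0) = 1 := by
  classical
  let Λ : (Fin (d + 1) → V) →ₗ[k] k := (b 0 (x 1)) ∘ₗ LinearMap.proj 0
  suffices h : ∃ Y ∈ LinearMap.ker (psi b (d + 1)), Λ Y ≠ 0 by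
    obtain ⟨Y, hY, hY'⟩ := h
    refine ⟨(Λ Y)⁻¹ • Y, ?_, ?_⟩
    · intro j hj v
      have h1 := (LinearMap.ker (psi b (d + 1))).smul_mem (Λ Y)⁻¹ hY
      rw [LinearMap.mem_ker] at h1
      have h2 := congrFun h1 ⟨j, by omega⟩
      simp only [psi, LinearMap.coe_mk, AddHom.coe_mk, if_pos hj, Pi.zero_apply] at h2
      have h3 := LinearMap.congr_fun h2 v
      rw [LinearMap.add_apply, LinearMap.zero_apply] at h3
      rw [ex_lt _ (show j < d + 1 by omega)]
      exact h3
    · have h3 : b 0 (x 1) (((Λ Y)⁻¹ • Y) 0) = (Λ Y)⁻¹ * Λ Y := by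
        rw [Pi.smul_apply, map_smul, smul_eq_mul]
        rfl
      rw [h3, inv_mul_cancel₀ hY']
  by_contra hcon
  push Not at hcon
  have h1 : Λ ∈ (LinearMap.ker (psi b (d + 1))).dualAnnihilator := by
    rw [Submodule.mem_dualAnnihilator]
    exact hcon
  rw [← LinearMap.range_dualMap_eq_dualAnnihilator_ker] at h1
  obtain ⟨g, hg⟩ := h1
  let u : Fin (d + 1) → V := fun j => (Module.evalEquiv k V).symm
    (g ∘ₗ LinearMap.single k (fun _ : Fin (d + 1) => V →ₗ[k] k) j)
  have hu : ∀ (j : Fin (d + 1)) (F : V →ₗ[k] k), g (Pi.single j F) = F (u j) := by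
    intro j F
    have h2 : Module.Dual.eval k V (u j) =
        g ∘ₗ LinearMap.single k (fun _ : Fin (d + 1) => V →ₗ[k] k) j := by
      have h3 := (Module.evalEquiv k V).apply_symm_apply
        (g ∘ₗ LinearMap.single k (fun _ : Fin (d + 1) => V →ₗ[k] k) j)
      exact h3
    have h4 := LinearMap.congr_fun h2 F
    rw [Module.Dual.eval_apply] at h4
    rw [h4]
    rfl
  have hgsum : ∀ F : Fin (d + 1) → (V →ₗ[k] k), g F = ∑ j, F j (u j) := by
    intro F
    conv_lhs => rw [← Finset.univ_sum_single F]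
    rw [map_sum]
    exact Finset.sum_congr rfl fun j _ => hu j _
  have hkey : ∀ Y : Fin (d + 1) → V, b 0 (x 1) (Y 0) =
      ∑ j : Fin (d + 1), (if (j : ℕ) + 1 < d + 1 then
        b 0 (Y j) (u j) + b 1 (ex Y ((j : ℕ) + 1)) (u j) else 0) := by
    intro Y
    have h2 : Λ Y = g (psi b (d + 1) Y) := by
      rw [← hg]
      rfl
    have h3 : Λ Y = b 0 (x 1) (Y 0) := rfl
    rw [← h3, h2, hgsum]
    refine Finset.sum_congr rfl fun j _ => ?_
    simp only [psi, LinearMap.coe_mk, AddHom.coe_mk]
    split_ifs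
    · rfl
    · rfl
  -- the terms
  have hex0 : ∀ (i : Fin (d + 1)) (v : V) (j : ℕ),
      ex (Pi.single i v : Fin (d + 1) → V) j = if j = i then v else 0 := by
    intro i v j
    by_cases hj : j < d + 1
    · rw [ex_lt _ hj]
      by_cases hji : j = i
      · rw [if_pos hji]
        have : (⟨j, hj⟩ : Fin (d + 1)) = i := Fin.ext hji
        rw [this, Pi.single_eq_same]
      · rw [if_neg hji, Pi.single_eq_of_ne]
        intro h
        exact hji (congrArg Fin.val h)
    · rw [ex_ge _ (by omega), if_neg]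
      have := i.2
      omega
  have hA : ∀ (i : Fin (d + 1)) (v : V), ∑ j : Fin (d + 1), (if (j : ℕ) + 1 < d + 1 then
        b 0 ((Pi.single i v : Fin (d + 1) → V) j) (u j) +
          b 1 (ex (Pi.single i v : Fin (d + 1) → V) ((j : ℕ) + 1)) (u j) else 0) =
      (if (i : ℕ) + 1 < d + 1 then b 0 v (u i) else 0) +
        (if 0 < (i : ℕ) then b 1 v (ex u ((i : ℕ) - 1)) else 0) := by
    intro i v
    have e1 : ∀ j : Fin (d + 1), (if (j : ℕ) + 1 < d + 1 then
        b 0 ((Pi.single i v : Fin (d + 1) → V) j) (u j) +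
          b 1 (ex (Pi.single i v : Fin (d + 1) → V) ((j : ℕ) + 1)) (u j) else 0) =
        (if j = i then (if (i : ℕ) + 1 < d + 1 then b 0 v (u i) else 0) else 0) +
          (if (j : ℕ) + 1 = i then b 1 v (u j) else 0) := by
      intro j
      rw [hex0]
      by_cases hj : (j : ℕ) + 1 < d + 1
      · rw [if_pos hj]
        congr 1
        · by_cases hji : j = i
          · subst hji
            rw [if_pos rfl, if_pos hj, Pi.single_eq_same]
          · rw [if_neg hji, Pi.single_eq_of_ne hji, map_zero, LinearMap.zero_apply]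
        · by_cases hji : (j : ℕ) + 1 = i
          · rw [if_pos hji, if_pos hji]
          · rw [if_neg hji, if_neg hji, map_zero, LinearMap.zero_apply]
      · rw [if_neg hj]
        have h5 : ¬ (j : ℕ) + 1 = i := by
          have := i.2
          omega
        rw [if_neg h5, add_zero]
        by_cases hji : j = i
        · subst hji
          rw [if_pos rfl, if_neg hj]
        · rw [if_neg hji]
    rw [Finset.sum_congr rfl fun j _ => e1 j, Finset.sum_add_distrib, Finset.sum_ite_eq' ]
    rw [if_pos (Finset.mem_univ i)]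
    congr 1
    by_cases hi : 0 < (i : ℕ)
    · rw [if_pos hi]
      have hi' : (i : ℕ) - 1 < d + 1 := by
        have := i.2
        omega
      rw [ex_lt _ hi', Finset.sum_eq_single ⟨(i : ℕ) - 1, hi'⟩]
      · rw [if_pos]
        show (i : ℕ) - 1 + 1 = i
        omega
      · intro j _ hj
        rw [if_neg]
        intro h
        apply hj
        apply Fin.ext
        show (j : ℕ) = (i : ℕ) - 1
        omega
      · intro h
        exact absurd (Finset.mem_univ _) h
    · rw [if_neg hi]
      refine Finset.sum_eq_zero fun j _ => ?_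
      rw [if_neg]
      omega
  have hrel0 : ∀ v, b 0 (x 1) v = if 0 + 1 < d + 1 then b 0 v (u 0) else 0 := by
    intro v
    have h2 := hkey (Pi.single 0 v)
    rw [Pi.single_eq_same, hA] at h2
    rw [h2]
    simp
  have hrel : ∀ (i : Fin (d + 1)), 0 < (i : ℕ) → ∀ v,
      (if (i : ℕ) + 1 < d + 1 then b 0 v (u i) else 0) + b 1 v (ex u ((i : ℕ) - 1)) = 0 := by
    intro i hi v
    have h2 := hkey (Pi.single i v)
    have h3 : (0 : Fin (d + 1)) ≠ i := by
      rintro rfl
      exact absurd hi (by simp)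
    rw [Pi.single_eq_of_ne h3, map_zero, hA, if_pos hi] at h2
    exact h2.symm
  let x' : ℕ → V := fun i => if i = 0 then x 0 else (if i < d + 1 then ex u (i - 1) else 0)
  apply hmin x'
  have hx'0 : x' 0 = x 0 := if_pos rfl
  have hx's : ∀ i, x' (i + 1) = if i + 1 < d + 1 then ex u i else 0 := by
    intro i
    simp only [x', if_neg (Nat.succ_ne_zero i), Nat.add_sub_cancel]
  refine ⟨?_, ?_, ?_, ?_⟩
  · rw [hx'0]
    exact hx.1
  · intro i hi
    obtain ⟨i', rfl⟩ : ∃ i', i = i' + 1 := ⟨i - 1, by omega⟩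
    rw [hx's, if_neg (by omega)]
  · intro v
    rw [hx'0]
    exact hx.2.2.1 v
  · intro i v
    rcases Nat.eq_zero_or_pos i with rfl | hi
    · rw [hx'0, hx's]
      have h3 := hx.2.2.2 0 v
      rw [zero_add] at h3
      rw [hrel0] at h3
      by_cases h4 : 0 + 1 < d + 1
      · rw [if_pos h4] at h3 ⊢
        rw [ex_lt _ (by omega)]
        rw [hsym 0]
        exact h3
      · rw [if_neg h4] at h3 ⊢
        rw [map_zero, LinearMap.zero_apply]
        exact h3
    · obtain ⟨i', rfl⟩ : ∃ i', i = i' + 1 := ⟨i - 1, by omega⟩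
      rw [hx's, hx's]
      by_cases h4 : i' + 1 < d + 1
      · have h5 := hrel ⟨i' + 1, h4⟩ (Nat.succ_pos i') v
        simp only [Nat.add_sub_cancel] at h5
        rw [if_pos h4]
        by_cases h6 : i' + 1 + 1 < d + 1
        · rw [if_pos h6] at h5 ⊢
          rw [ex_lt _ h4, hsym 0, hsym 1]
          exact h5
        · rw [if_neg h6] at h5 ⊢
          rw [map_zero, LinearMap.zero_apply, hsym 1]
          exact h5
      · rw [if_neg h4, if_neg (by omega)]
        simp

include hsym in
/-- The second half of the block can be chosen isotropic. -/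
theorem exists_Y' (h2 : (2 : k) ≠ 0) {d : ℕ} {x : ℕ → V} (hx : Sol b (d + 1) x)
    (hmin : ∀ x', ¬ Sol b d x') :
    ∃ Y : ℕ → V, (∀ j : ℕ, j < d → ∀ v, b 0 (Y j) v + b 1 (Y (j + 1)) v = 0) ∧
      (∀ i j, j ≤ d → b 0 (x i) (Y j) = if i = j + 1 then 1 else 0) ∧
      (∀ i j, i ≤ d → j ≤ d → b 0 (Y i) (Y j) = 0 ∧ b 1 (Y i) (Y j) = 0) := by
  classical
  obtain ⟨Y0, hY1, hY2⟩ := exists_Y b hsym hx hmin
  let Y := ex Y0
  have hrel : ∀ j : ℕ, j < d → ∀ v, b 0 (Y j) v + b 1 (Y (j + 1)) v = 0 := fun j hj v =>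
    hY1 j (by omega) v
  have hY00 : Y 0 = Y0 0 := ex_lt _ (by omega)
  -- the pairing with `x`
  have hstep : ∀ i j, j < d → b 0 (x i) (Y j) = b 0 (x (i + 1)) (Y (j + 1)) := by
    intro i j hj
    have e1 := hrel j hj (x i)
    have e2 := hx.2.2.2 i (Y (j + 1))
    rw [hsym 1 (Y (j + 1)) (x i), hsym 0 (Y j) (x i)] at e1
    linear_combination e1 - e2
  have hsteps : ∀ n i j, j + n ≤ d → b 0 (x i) (Y j) = b 0 (x (i + n)) (Y (j + n)) := by
    intro n
    induction n with
    | zero => intro i j _; rfl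
    | succ n ih =>
      intro i j h
      rw [ih i j (by omega), hstep _ _ (by omega)]
      rfl
  have hpair : ∀ i j, j ≤ d → b 0 (x i) (Y j) = if i = j + 1 then 1 else 0 := by
    intro i j hj
    rcases lt_trichotomy i (j + 1) with h | h | h
    · rw [if_neg (by omega)]
      have e1 := hsteps i 0 (j - i) (by omega)
      rw [zero_add, show j - i + i = j by omega] at e1
      rw [← e1]
      exact hx.2.2.1 _
    · rw [if_pos h, h]
      have e1 := hsteps j 1 0 (by omega)
      rw [zero_add, add_comm 1 j, hY00, hY2] at e1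
      exact e1.symm
    · rw [if_neg (by omega), hsteps (d - j) i j (by omega), hx.2.1 _ (by omega), map_zero,
        LinearMap.zero_apply]
  -- the correction
  let β : ℕ → ℕ → k := fun j l => b 0 (Y j) (Y l)
  have hβ : ∀ j l, j < d → l < d → β j (l + 1) = β (j + 1) l := by
    intro j l hj hl
    have e1 := hrel j hj (Y (l + 1))
    have e2 := hrel l hl (Y (j + 1))
    have e3 : b 1 (Y (l + 1)) (Y (j + 1)) = b 1 (Y (j + 1)) (Y (l + 1)) := hsym _ _ _
    have e4 : b 0 (Y l) (Y (j + 1)) = b 0 (Y (j + 1)) (Y l) := hsym _ _ _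
    show b 0 (Y j) (Y (l + 1)) = b 0 (Y (j + 1)) (Y l)
    rw [e3, e4] at e2
    linear_combination e1 - e2
  let h : ℕ → k := fun s => β (min s d) (s - min s d)
  have hβh : ∀ n j l, n = min (j + l) d - j → j ≤ d → l ≤ d → β j l = h (j + l) := by
    intro n
    induction n with
    | zero =>
      intro j l hn hj hl
      have e1 : min (j + l) d = j := by omega
      show β j l = β (min (j + l) d) (j + l - min (j + l) d)
      rw [e1, Nat.add_sub_cancel_left]
    | succ n ih =>
      intro j l hn hj hl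
      obtain ⟨l', rfl⟩ : ∃ l', l = l' + 1 := ⟨l - 1, by omega⟩
      rw [hβ j l' (by omega) (by omega), ih (j + 1) l' (by omega) (by omega) (by omega)]
      congr 1
      omega
  let a : ℕ → k := fun s => if s = 0 then b 1 (Y 0) (Y 0) / 2 else - h (s - 1) / 2
  let Y' : ℕ → V := fun j => Y j + ∑ i ∈ Finset.range (d + 2), a (i + j) • x i
  have hiso := x_iso b hsym hx
  have hsum0 : ∀ (l : Fin 2) (j : ℕ) (v : V),
      b l (∑ i ∈ Finset.range (d + 2), a (i + j) • x i) v =
        ∑ i ∈ Finset.range (d + 2), a (i + j) * b l (x i) v := by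
    intro l j v
    rw [map_sum, LinearMap.sum_apply]
    refine Finset.sum_congr rfl fun i _ => ?_
    rw [map_smul, LinearMap.smul_apply, smul_eq_mul]
  have hsumx : ∀ (l : Fin 2) (j i' : ℕ),
      b l (∑ i ∈ Finset.range (d + 2), a (i + j) • x i) (x i') = 0 := by
    intro l j i'
    rw [hsum0]
    refine Finset.sum_eq_zero fun i _ => ?_
    have : b l (x i) (x i') = 0 := by
      fin_cases l
      · exact (hiso i i').1
      · exact (hiso i i').2
    rw [this, mul_zero]
  have hsumxx : ∀ (l : Fin 2) (j j' : ℕ),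
      b l (∑ i ∈ Finset.range (d + 2), a (i + j) • x i)
        (∑ i ∈ Finset.range (d + 2), a (i + j') • x i) = 0 := by
    intro l j j'
    rw [map_sum]
    refine Finset.sum_eq_zero fun i _ => ?_
    rw [map_smul, hsumx, smul_zero]
  have hsumY : ∀ (j l : ℕ), l ≤ d →
      b 0 (∑ i ∈ Finset.range (d + 2), a (i + j) • x i) (Y l) = a (l + 1 + j) := by
    intro j l hl
    rw [hsum0, Finset.sum_eq_single (l + 1)]
    · rw [hpair _ _ hl, if_pos rfl, mul_one]
    · intro i _ hi
      rw [hpair _ _ hl, if_neg hi, mul_zero]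
    · intro hl'
      exact absurd (Finset.mem_range.2 (by omega)) hl'
  have hx1 : ∀ i l, l ≤ d → b 1 (x i) (Y l) = if i = l then -1 else 0 := by
    intro i l hl
    have e1 := hx.2.2.2 i (Y l)
    rw [hpair _ _ hl] at e1
    by_cases hil : i = l
    · rw [if_pos (by omega)] at e1
      rw [if_pos hil]
      linear_combination e1
    · rw [if_neg (by omega)] at e1
      rw [if_neg hil]
      linear_combination e1
  have hsumY1 : ∀ (j l : ℕ), l ≤ d →
      b 1 (∑ i ∈ Finset.range (d + 2), a (i + j) • x i) (Y l) = - a (l + j) := by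
    intro j l hl
    rw [hsum0, Finset.sum_eq_single l]
    · rw [hx1 _ _ hl, if_pos rfl, mul_neg_one]
    · intro i _ hi
      rw [hx1 _ _ hl, if_neg hi, mul_zero]
    · intro hl'
      exact absurd (Finset.mem_range.2 (by omega)) hl'
  have hY'rel : ∀ j : ℕ, j < d → ∀ v, b 0 (Y' j) v + b 1 (Y' (j + 1)) v = 0 := by
    intro j hj v
    have e1 := hrel j hj v
    have e2 : b 0 (∑ i ∈ Finset.range (d + 2), a (i + j) • x i) v +
        b 1 (∑ i ∈ Finset.range (d + 2), a (i + (j + 1)) • x i) v = 0 := by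
      have e3 : b 1 (x (d + 1)) v = 0 := by
        have e4 := hx.2.2.2 (d + 1) v
        rw [hx.2.1 (d + 1 + 1) (by omega), map_zero, LinearMap.zero_apply, zero_add] at e4
        exact e4
      have s1 : ∑ i ∈ Finset.range (d + 2), a (i + j) * b 0 (x i) v =
          ∑ i ∈ Finset.range (d + 1), a (i + 1 + j) * b 0 (x (i + 1)) v := by
        rw [Finset.sum_range_succ', hx.2.2.1, mul_zero, add_zero]
      have s2 : ∑ i ∈ Finset.range (d + 2), a (i + (j + 1)) * b 1 (x i) v =
          ∑ i ∈ Finset.range (d + 1), a (i + (j + 1)) * b 1 (x i) v := by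
        rw [Finset.sum_range_succ, e3, mul_zero, add_zero]
      rw [hsum0, hsum0, s1, s2, ← Finset.sum_add_distrib]
      refine Finset.sum_eq_zero fun i _ => ?_
      rw [show i + (j + 1) = i + 1 + j by omega, ← mul_add, hx.2.2.2 i v, mul_zero]
    simp only [Y', map_add, LinearMap.add_apply]
    linear_combination e1 + e2
  have hiso0 : ∀ i j, i ≤ d → j ≤ d → b 0 (Y' i) (Y' j) = 0 := by
    intro i j hi hj
    have e1 : b 0 (Y i) (∑ i' ∈ Finset.range (d + 2), a (i' + j) • x i') = a (i + 1 + j) := by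
      rw [hsym, hsumY _ _ hi]
    simp only [Y', map_add, LinearMap.add_apply]
    rw [hsumxx, hsumY _ _ hj, e1]
    have e2 : b 0 (Y i) (Y j) = h (i + j) := hβh _ i j rfl hi hj
    have e3 : a (i + 1 + j) = - h (i + j) / 2 := by
      simp only [a]
      rw [if_neg (by omega), show i + 1 + j - 1 = i + j by omega]
    rw [e2, e3, show j + 1 + i = i + 1 + j by omega, e3]
    field_simp
    ring
  have hiso1 : ∀ i j, i ≤ d → j ≤ d → b 1 (Y' i) (Y' j) = 0 := by
    intro i j hi hj
    rcases Nat.eq_zero_or_pos i with rfl | hi'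
    · rcases Nat.eq_zero_or_pos j with rfl | hj'
      · have e1 : b 1 (Y 0) (∑ i' ∈ Finset.range (d + 2), a (i' + 0) • x i') = - a (0 + 0) := by
          rw [hsym, hsumY1 _ _ hi]
        simp only [Y', map_add, LinearMap.add_apply]
        rw [hsumxx, hsumY1 _ _ hi, e1]
        have e3 : a (0 + 0) = b 1 (Y 0) (Y 0) / 2 := if_pos rfl
        rw [e3]
        field_simp
        ring
      · obtain ⟨j', rfl⟩ : ∃ j', j = j' + 1 := ⟨j - 1, by omega⟩
        have e1 := hY'rel j' (by omega) (Y' 0)
        rw [hiso0 j' 0 (by omega) hi, zero_add] at e1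
        rw [hsym, e1]
    · obtain ⟨i', rfl⟩ : ∃ i', i = i' + 1 := ⟨i - 1, by omega⟩
      have e1 := hY'rel i' (by omega) (Y' j)
      rw [hiso0 i' j (by omega) hj, zero_add] at e1
      exact e1
  refine ⟨Y', hY'rel, ?_, fun i j hi hj => ⟨hiso0 i j hi hj, hiso1 i j hi hj⟩⟩
  intro i j hj
  simp only [Y', map_add]
  rw [hpair i j hj, hsym 0 (x i), hsumx, add_zero]

end block

end Pool.Agent.KS6_21.Q
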