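import Pool.Agent.KS6_21.P1.Ops3

/-!
Monomials with exponents which are affinely independent modulo `p`: completion to a basis of the
lattice of exponents up to an index prime to `p`.
-/

set_option autoImplicit false
set_option linter.unusedVariables false
set_option linter.unusedSectionVars false

universe u

namespace Pool.Agent.KS6_21.Q

/-- Completion of linearly independent vectors by standard basis vectors. -/
theorem exists_completion {F : Type} [Field F] {J I : Type} [Fintype J] [DecidableEq J]
    [Fintype I] (D : I → J → F) (hD : LinearIndependent F D) :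
    ∃ (S : Finset J), LinearIndependent F (Sum.elim D fun f : S => (Pi.single (f : J) (1 : F) : J → F)) ∧
      Fintype.card J = Fintype.card I + S.card := by
  classical
  let Q : Finset J → Prop := fun S =>
    LinearIndependent F (Sum.elim D fun f : S => (Pi.single (f : J) (1 : F) : J → F))
  have hQ0 : Q ∅ := by
    show LinearIndependent F (Sum.elim D fun f : (∅ : Finset J) => (Pi.single (f : J) (1 : F) : J → F))
    have h1 : LinearIndependent F (D ∘ (Equiv.sumEmpty I (∅ : Finset J))) :=
      hD.comp _ (Equiv.injective _)
    convert h1 using 1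
    funext x
    rcases x with x | x
    · rfl
    · exact absurd x.2 (Finset.notMem_empty _)
  obtain ⟨S, hS, hmax⟩ : ∃ S, Q S ∧ ∀ S', Q S' → S'.card ≤ S.card := by
    obtain ⟨S, hS, hS'⟩ := (Finset.univ.filter Q).exists_max_image Finset.card
      ⟨∅, Finset.mem_filter.2 ⟨Finset.mem_univ _, hQ0⟩⟩
    exact ⟨S, (Finset.mem_filter.1 hS).2, fun S' h => hS' S' (Finset.mem_filter.2
      ⟨Finset.mem_univ _, h⟩)⟩
  refine ⟨S, hS, ?_⟩
  set v : I ⊕ S → J → F := Sum.elim D fun f : S => (Pi.single (f : J) (1 : F) : J → F) with hv
  have hspan : Submodule.span F (Set.range v) = ⊤ := by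
    rw [eq_top_iff]
    have h1 : ∀ j : J, (Pi.single j (1 : F) : J → F) ∈ Submodule.span F (Set.range v) := by
      intro j
      by_contra hj
      have hjS : j ∉ S := by
        intro h
        exact hj (Submodule.subset_span ⟨Sum.inr ⟨j, h⟩, rfl⟩)
      have h2 : Q (insert j S) := by
        have h3 : LinearIndependent F (Sum.elim v fun _ : Unit => (Pi.single j (1 : F) : J → F)) := by
          refine LinearIndependent.sum_type hS ?_ ?_
          · rw [linearIndependent_unique_iff]
            intro h
            have h4 := congrFun h j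
            rw [Pi.single_eq_same, Pi.zero_apply] at h4
            exact one_ne_zero h4
          · rw [Submodule.disjoint_def]
            intro x hx hx'
            rw [Set.range_const, Submodule.mem_span_singleton] at hx'
            obtain ⟨c, rfl⟩ := hx'
            by_cases hc : c = 0
            · rw [hc, zero_smul]
            · exfalso
              apply hj
              have h5 := Submodule.smul_mem _ c⁻¹ hx
              rwa [smul_smul, inv_mul_cancel₀ hc, one_smul] at h5
        let g : I ⊕ (insert j S : Finset J) → (I ⊕ S) ⊕ Unit := Sum.elim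
          (fun i => Sum.inl (Sum.inl i))
          (fun f => if h : (f : J) = j then Sum.inr () else
            Sum.inl (Sum.inr ⟨f, Finset.mem_of_mem_insert_of_ne f.2 h⟩))
        have hg : Function.Injective g := by
          rintro (x | x) (y | y) hxy
          · simp only [g, Sum.elim_inl, Sum.inl.injEq] at hxy
            rw [hxy]
          · simp only [g, Sum.elim_inl, Sum.elim_inr] at hxy
            split_ifs at hxy with h
            exact absurd hxy (by simp)
          · simp only [g, Sum.elim_inl, Sum.elim_inr] at hxy
            split_ifs at hxy with h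
            exact absurd hxy (by simp)
          · simp only [g, Sum.elim_inr] at hxy
            split_ifs at hxy with h h'
            · congr 1
              exact Subtype.ext (h.trans h'.symm)
            · congr 1
              simp only [Sum.inl.injEq, Sum.inr.injEq, Subtype.mk.injEq] at hxy
              exact Subtype.ext hxy
        have h6 := h3.comp g hg
        show LinearIndependent F (Sum.elim D fun f : (insert j S : Finset J) =>
          (Pi.single (f : J) (1 : F) : J → F))
        convert h6 using 1
        funext x
        rcases x with x | x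
        · rfl
        · simp only [Function.comp_apply, g, Sum.elim_inr]
          split_ifs with h
          · rw [h]
            rfl
          · rfl
      have h7 := hmax _ h2
      rw [Finset.card_insert_of_notMem hjS] at h7
      omega
    intro x _
    have h8 : x = ∑ j, x j • (Pi.single j (1 : F) : J → F) := by
      funext l
      rw [Finset.sum_apply, Finset.sum_eq_single l]
      · simp
      · intro j _ hj
        simp [hj.symm]
      · intro h
        exact absurd (Finset.mem_univ l) h
    rw [h8]
    exact Submodule.sum_mem _ fun j _ => Submodule.smul_mem _ _ (h1 j)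
  have hb := Module.finrank_eq_card_basis (Module.Basis.mk hS (by rw [hspan]))
  rw [Module.finrank_fintype_fun_eq_card, Fintype.card_sum, Fintype.card_coe] at hb
  exact hb

/-- The value of a monomial. -/
noncomputable def mono {K : Type u} [Field K] {J : Type} [Fintype J] (y : J → K) (e : J → ℤ) : K :=
  ∏ j, y j ^ e j

lemma mono_add {K : Type u} [Field K] {J : Type} [Fintype J] {y : J → K} (hy : ∀ j, y j ≠ 0)
    (e e' : J → ℤ) : mono y (e + e') = mono y e * mono y e' := by
  rw [mono, mono, mono, ← Finset.prod_mul_distrib]
  exact Finset.prod_congr rfl fun j _ => by rw [Pi.add_apply, zpow_add₀ (hy j)]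

lemma mono_sub {K : Type u} [Field K] {J : Type} [Fintype J] {y : J → K} (hy : ∀ j, y j ≠ 0)
    (e e' : J → ℤ) : mono y (e - e') = mono y e / mono y e' := by
  rw [mono, mono, mono, ← Finset.prod_div_distrib]
  exact Finset.prod_congr rfl fun j _ => by rw [Pi.sub_apply, zpow_sub₀ (hy j)]

lemma mono_ne {K : Type u} [Field K] {J : Type} [Fintype J] {y : J → K} (hy : ∀ j, y j ≠ 0)
    (e : J → ℤ) : mono y e ≠ 0 :=
  Finset.prod_ne_zero_iff.2 fun j _ => zpow_ne_zero _ (hy j)

lemma mono_single {K : Type u} [Field K] {J : Type} [Fintype J] [DecidableEq J] (y : J → K)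
    (j : J) (m : ℤ) : mono y (Pi.single j m) = y j ^ m := by
  rw [mono, Finset.prod_eq_single j]
  · rw [Pi.single_eq_same]
  · intro l _ hl
    rw [Pi.single_eq_of_ne hl, zpow_zero]
  · intro h
    exact absurd (Finset.mem_univ j) h

lemma mono_zsum {K : Type u} [Field K] {J I : Type} [Fintype J] {y : J → K} (hy : ∀ j, y j ≠ 0)
    (s : Finset I) (a : I → ℤ) (e : I → J → ℤ) :
    mono y (∑ i ∈ s, a i • e i) = ∏ i ∈ s, mono y (e i) ^ a i := by
  classical
  induction s using Finset.induction_on with
  | empty =>
    rw [Finset.sum_empty, Finset.prod_empty]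
    simp [mono]
  | insert i s hi ih =>
    rw [Finset.sum_insert hi, Finset.prod_insert hi, mono_add hy, ih]
    congr 1
    rw [mono, mono, ← Finset.prod_zpow]
    exact Finset.prod_congr rfl fun j _ => by
      rw [Pi.smul_apply, smul_eq_mul, mul_comm, zpow_mul]

/-- Up to an index prime to `p` the lattice of exponents is generated by given vectors, which are
independent modulo `p`, and by standard basis vectors. -/
theorem exists_index (p : ℕ) [Fact p.Prime] {J I : Type} [Fintype J] [DecidableEq J] [Fintype I]
    (D : I → J → ℤ) (hD : LinearIndependent (ZMod p) fun i j => ((D i j : ℤ) : ZMod p)) :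
    ∃ (S : Finset J), Fintype.card J = Fintype.card I + S.card ∧ ∃ (δ : ℕ), ¬ p ∣ δ ∧
      ∀ j : J, ∃ (a : I → ℤ) (b : S → ℤ),
        (Pi.single j (δ : ℤ) : J → ℤ) = ∑ i, a i • D i + ∑ f : S, b f • Pi.single (f : J) 1 := by
  classical
  obtain ⟨S, hS, hcard⟩ := exists_completion (fun i j => ((D i j : ℤ) : ZMod p)) hD
  refine ⟨S, hcard, ?_⟩
  have hc : Fintype.card J = Fintype.card (I ⊕ S) := by
    rw [Fintype.card_sum, Fintype.card_coe, hcard]
  let σ : J ≃ I ⊕ S := Fintype.equivOfCardEq hc
  let R : I ⊕ S → J → ℤ := Sum.elim D fun f : S => Pi.single (f : J) 1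
  let M : Matrix J J ℤ := Matrix.of fun j => R (σ j)
  have hM : ¬ (p : ℤ) ∣ M.det := by
    intro h
    have h1 : (M.map (Int.castRingHom (ZMod p))).det = 0 := by
      have h2 := RingHom.map_det (Int.castRingHom (ZMod p)) M
      rw [RingHom.mapMatrix_apply] at h2
      rw [← h2]
      exact (ZMod.intCast_zmod_eq_zero_iff_dvd _ p).2 h
    have h3 : LinearIndependent (ZMod p) (M.map (Int.castRingHom (ZMod p))).row := by
      have h4 := hS.comp σ σ.injective
      convert h4 using 1
      funext j l
      show ((R (σ j) l : ℤ) : ZMod p) = _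
      rw [Function.comp_apply]
      rcases σ j with i | f
      · rfl
      · show (((Pi.single (f : J) (1 : ℤ) : J → ℤ) l : ℤ) : ZMod p) =
          (Pi.single (f : J) (1 : ZMod p) : J → ZMod p) l
        by_cases hl : l = f
        · subst hl
          rw [Pi.single_eq_same, Pi.single_eq_same, Int.cast_one]
        · rw [Pi.single_eq_of_ne hl, Pi.single_eq_of_ne hl, Int.cast_zero]
    rw [Matrix.linearIndependent_rows_iff_isUnit, Matrix.isUnit_iff_isUnit_det, h1] at h3
    exact not_isUnit_zero h3
  refine ⟨M.det.natAbs, ?_, ?_⟩
  · intro h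
    exact hM (Int.natCast_dvd.2 h)
  · intro j
    have hadj : ∀ l, ∑ j', M.adjugate j j' * M j' l = if j = l then M.det else 0 := by
      intro l
      have h5 := congrFun (congrFun M.adjugate_mul j) l
      rw [Matrix.mul_apply, Matrix.smul_apply, Matrix.one_apply, smul_eq_mul, mul_ite, mul_one,
        mul_zero] at h5
      exact h5
    let ε : ℤ := M.det.sign
    have hε : ε * M.det = (M.det.natAbs : ℤ) := Int.sign_mul_self_eq_natAbs _
    refine ⟨fun i => ε * M.adjugate j (σ.symm (Sum.inl i)),
      fun f => ε * M.adjugate j (σ.symm (Sum.inr f)), ?_⟩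
    funext l
    have h6 : (∑ j', M.adjugate j j' * M j' l) =
        ∑ x : I ⊕ S, M.adjugate j (σ.symm x) * R x l := by
      rw [← Equiv.sum_comp σ.symm]
      refine Finset.sum_congr rfl fun x _ => ?_
      show _ * R (σ (σ.symm x)) l = _
      rw [Equiv.apply_symm_apply]
    rw [hadj, Fintype.sum_sum_type] at h6
    rw [Pi.add_apply, Finset.sum_apply, Finset.sum_apply]
    have h7 : (Pi.single j ((M.det.natAbs : ℕ) : ℤ) : J → ℤ) l =
        ε * (if j = l then M.det else 0) := by
      by_cases hjl : j = l
      · subst hjl
        rw [Pi.single_eq_same, if_pos rfl, hε]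
      · rw [Pi.single_eq_of_ne (Ne.symm hjl), if_neg hjl, mul_zero]
    rw [h7, h6, mul_add, Finset.mul_sum, Finset.mul_sum]
    congr 1
    · refine Finset.sum_congr rfl fun i _ => ?_
      rw [Pi.smul_apply, smul_eq_mul, mul_assoc]
      rfl
    · refine Finset.sum_congr rfl fun f _ => ?_
      rw [Pi.smul_apply, smul_eq_mul, mul_assoc]
      rfl

end Pool.Agent.KS6_21.Q
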