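import Mathlib

/-!
The normal form of pencils of symmetric bilinear forms over an algebraically closed field of
characteristic different from two: blocks and decomposition.
-/

set_option autoImplicit false
set_option linter.unusedVariables false
set_option linter.unusedSectionVars false

universe u v

open Module

namespace Pool.Agent.KS6_21.Q

variable {k : Type u} [Field k] {V : Type v} [AddCommGroup V] [Module k V]

/-- There is a basis such that the products of coordinates which occur in the two quadratic forms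
can be arranged in paths. -/
def Sparse (b : Fin 2 → V →ₗ[k] V →ₗ[k] k) : Prop :=
  ∃ (ι : Type) (_ : Fintype ι) (_ : DecidableEq ι) (e : Basis ι k V) (s : ι → ι) (r : ι → ℕ),
    (∀ i, s i = i ∨ r i < r (s i)) ∧ ∀ l i j, b l (e i) (e j) ≠ 0 → j = s i ∨ i = s j

section split

variable {ι : Type} [Fintype ι] [DecidableEq ι] (w : ι → V) (f : ι → V →ₗ[k] k)

/-- The common kernel of the functionals. -/
abbrev kerf : Submodule k V := LinearMap.ker (LinearMap.pi f)

lemma mem_kerf {v : V} : v ∈ kerf f ↔ ∀ i, f i v = 0 := by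
  rw [LinearMap.mem_ker]
  constructor
  · intro h i
    exact congrFun h i
  · intro h
    funext i
    exact h i

lemma dual_bij (hfw : ∀ i j, f i (w j) = if i = j then 1 else 0) :
    Function.Bijective (LinearMap.coprod (Fintype.linearCombination k w) (kerf f).subtype) := by
  have h1 : ∀ (c : ι → k) (i : ι), f i (∑ j, c j • w j) = c i := by
    intro c i
    rw [map_sum, Finset.sum_eq_single i]
    · rw [map_smul, hfw, if_pos rfl, smul_eq_mul, mul_one]
    · intro j _ hj
      rw [map_smul, hfw, if_neg (Ne.symm hj), smul_zero]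
    · intro h
      exact absurd (Finset.mem_univ i) h
  constructor
  · rw [← LinearMap.ker_eq_bot, LinearMap.ker_eq_bot']
    rintro ⟨c, v⟩ h
    have h2 : ∑ j, c j • w j + (v : V) = 0 := by
      simpa [LinearMap.coprod_apply, Fintype.linearCombination_apply] using h
    have h3 : ∀ i, c i = 0 := by
      intro i
      have h4 := congrArg (f i) h2
      rw [map_add, h1, (mem_kerf f).1 v.2, add_zero, map_zero] at h4
      exact h4
    have h5 : (v : V) = 0 := by
      have h6 : ∑ j, c j • w j = 0 := Finset.sum_eq_zero fun j _ => by rw [h3, zero_smul]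
      rwa [h6, zero_add] at h2
    refine Prod.ext (funext h3) (Subtype.ext h5)
  · intro v
    refine ⟨(fun i => f i v, ⟨v - ∑ j, f j v • w j, ?_⟩), ?_⟩
    · rw [mem_kerf]
      intro i
      rw [map_sub, h1, sub_self]
    · simp [LinearMap.coprod_apply, Fintype.linearCombination_apply]

/-- A block with a dual family of functionals splits off. -/
theorem sparse_split (b : Fin 2 → V →ₗ[k] V →ₗ[k] k) (hsym : ∀ l x y, b l x y = b l y x)
    (hfw : ∀ i j, f i (w j) = if i = j then 1 else 0)
    (hort : ∀ l i v, (∀ j, f j v = 0) → b l (w i) v = 0) (s : ι → ι) (r : ι → ℕ)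
    (hs : ∀ i, s i = i ∨ r i < r (s i))
    (hb : ∀ l i j, b l (w i) (w j) ≠ 0 → j = s i ∨ i = s j)
    (ih : Sparse (fun l => (b l).compl₁₂ (kerf f).subtype (kerf f).subtype)) : Sparse b := by
  obtain ⟨ι', hι', hd', e', s', r', hs', hb'⟩ := ih
  let E := LinearEquiv.ofBijective _ (dual_bij w f hfw)
  let e : Basis (ι ⊕ ι') k V := ((Pi.basisFun k ι).prod e').map E
  have h1 : ∀ i, e (Sum.inl i) = w i := by
    intro i
    have h2 : e (Sum.inl i) = E ((Pi.basisFun k ι i), 0) := by
      simp only [e, Basis.map_apply]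
      congr 1
      simp
    rw [h2]
    change LinearMap.coprod (Fintype.linearCombination k w) (kerf f).subtype
      ((Pi.basisFun k ι i), 0) = w i
    rw [LinearMap.coprod_apply, map_zero, add_zero, Fintype.linearCombination_apply,
      Finset.sum_eq_single i]
    · simp
    · intro j _ hj
      simp [hj]
    · intro h
      exact absurd (Finset.mem_univ i) h
  have h2 : ∀ j, e (Sum.inr j) = (e' j : V) := by
    intro j
    have h2 : e (Sum.inr j) = E (0, e' j) := by
      simp only [e, Basis.map_apply]
      congr 1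
      simp
    rw [h2]
    change LinearMap.coprod (Fintype.linearCombination k w) (kerf f).subtype (0, e' j) = _
    rw [LinearMap.coprod_apply, map_zero, zero_add]
    rfl
  have h3 : ∀ l i j, b l (w i) (e' j : V) = 0 := fun l i j =>
    hort l i _ fun i' => (mem_kerf f).1 (e' j).2 i'
  refine ⟨ι ⊕ ι', inferInstance, inferInstance, e, Sum.map s s', Sum.elim r r', ?_, ?_⟩
  · rintro (i | i)
    · rcases hs i with h | h
      · left
        rw [Sum.map_inl, h]
      · right
        exact h
    · rcases hs' i with h | h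
      · left
        rw [Sum.map_inr, h]
      · right
        exact h
  · rintro l (i | i) (j | j) hij
    · rw [h1, h1] at hij
      rcases hb l i j hij with h | h
      · left
        rw [Sum.map_inl, ← h]
      · right
        rw [Sum.map_inl, ← h]
    · rw [h1, h2] at hij
      exact absurd (h3 l i j) hij
    · rw [h1, h2, hsym] at hij
      exact absurd (h3 l j i) hij
    · rw [h2, h2] at hij
      rcases hb' l i j hij with h | h
      · left
        rw [Sum.map_inr, ← h]
      · right
        rw [Sum.map_inr, ← h]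

lemma finrank_kerf [FiniteDimensional k V] [Nonempty ι]
    (hfw : ∀ i j, f i (w j) = if i = j then 1 else 0) :
    finrank k (kerf f) < finrank k V := by
  have h1 := (LinearEquiv.ofBijective _ (dual_bij w f hfw)).finrank_eq
  rw [Module.finrank_prod, Module.finrank_fintype_fun_eq_card] at h1
  have h2 : 0 < Fintype.card ι := Fintype.card_pos
  omega

end split

section jordan

/-- The block of a vector of a generalized eigenspace. -/
theorem exists_jordan [IsAlgClosed k] (h2 : (2 : k) ≠ 0) [FiniteDimensional k V] [Nontrivial V]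
    (a a' : V →ₗ[k] V →ₗ[k] k) (ha : ∀ x y, a x y = a y x) (ha' : ∀ x y, a' x y = a' y x)
    (hnd : ∀ v, (∀ w, a v w = 0) → v = 0) :
    ∃ (m : ℕ) (_ : 0 < m) (w : Fin m → V) (f : Fin m → V →ₗ[k] k),
      (∀ i j, f i (w j) = if i = j then 1 else 0) ∧
      (∀ i v, (∀ j, f j v = 0) → a (w i) v = 0 ∧ a' (w i) v = 0) ∧
      ∀ i j : Fin m, (a (w i) (w j) ≠ 0 ∨ a' (w i) (w j) ≠ 0) →
        (i : ℕ) + j + 1 = m ∨ (i : ℕ) + j + 2 = m := by
  classical
  -- the self-adjoint operator
  have hinj : Function.Injective a := by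
    rw [← LinearMap.ker_eq_bot, LinearMap.ker_eq_bot']
    intro v hv
    exact hnd v fun w => by rw [hv, LinearMap.zero_apply]
  have hbij : Function.Bijective a := by
    refine ⟨hinj, ?_⟩
    exact (LinearMap.injective_iff_surjective_of_finrank_eq_finrank
      (Subspace.dual_finrank_eq (K := k) (V := V)).symm).1 hinj
  let ea : V ≃ₗ[k] (V →ₗ[k] k) := LinearEquiv.ofBijective a hbij
  let A : V →ₗ[k] V := ea.symm.toLinearMap ∘ₗ a'
  have hA : ∀ v w, a (A v) w = a' v w := by
    intro v w
    have h1 : ea (ea.symm (a' v)) = a' v := LinearEquiv.apply_symm_apply _ _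
    have h3 : a (A v) = a' v := h1
    rw [h3]
  obtain ⟨lam, hlam⟩ := Module.End.exists_eigenvalue (K := k) (A : Module.End k V)
  let N : Module.End k V := (A : Module.End k V) - algebraMap k (Module.End k V) lam
  have hN1 : ∀ v w, a (N v) w = a' v w - lam * a v w := by
    intro v w
    have h3 : N v = A v - lam • v := by
      simp [N, Module.algebraMap_end_apply]
    rw [h3, map_sub, LinearMap.sub_apply, hA, map_smul, LinearMap.smul_apply, smul_eq_mul]
  have hadj1 : ∀ v w, a (N v) w = a v (N w) := by
    intro v w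
    rw [hN1, ha v (N w), hN1, ha' v w, ha v w]
  have hadj : ∀ (n : ℕ) (v w : V), a ((N ^ n) v) w = a v ((N ^ n) w) := by
    intro n
    induction n with
    | zero => intro v w; simp
    | succ n ih =>
      intro v w
      rw [pow_succ, Module.End.mul_apply, ih, hadj1]
      congr 1
      rw [← Module.End.mul_apply, ← pow_succ', pow_succ, Module.End.mul_apply]
  -- the generalized eigenspace
  obtain ⟨n, hn⟩ := Filter.eventually_atTop.1
    (LinearMap.eventually_isCompl_ker_pow_range_pow (R := k) (M := V) N)
  obtain ⟨v0, hv0⟩ := hlam.exists_hasEigenvector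
  have hNv0 : N v0 = 0 := by
    have h3 : N v0 = A v0 - lam • v0 := by
      simp [N, Module.algebraMap_end_apply]
    rw [h3, sub_eq_zero]
    exact hv0.apply_eq_smul
  have hcompl := hn (n + 1) (Nat.le_succ n)
  have hadd : ∀ (i j : ℕ) (v : V), (N ^ i) ((N ^ j) v) = (N ^ (i + j)) v := by
    intro i j v
    rw [pow_add, Module.End.mul_apply]
  have hex : ∃ m : ℕ, ∀ v, (N ^ (n + 1)) v = 0 → (N ^ m) v = 0 := ⟨n + 1, fun v h => h⟩
  let m := Nat.find hex
  have hm : ∀ v, (N ^ (n + 1)) v = 0 → (N ^ m) v = 0 := Nat.find_spec hex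
  have hm0 : m ≠ 0 := by
    intro h
    have h3 := hm v0 (by rw [pow_succ, Module.End.mul_apply, hNv0, map_zero])
    rw [h, pow_zero] at h3
    exact hv0.2 h3
  obtain ⟨u, hu, hu'⟩ : ∃ u, (N ^ (n + 1)) u = 0 ∧ (N ^ (m - 1)) u ≠ 0 := by
    by_contra hcon
    push Not at hcon
    exact Nat.find_min hex (show m - 1 < m by omega) hcon
  obtain ⟨v1, hv1, hv1'⟩ : ∃ v, (N ^ (n + 1)) v = 0 ∧ a ((N ^ (m - 1)) v) v ≠ 0 := by
    by_contra hcon
    push Not at hcon
    apply hu'
    apply hnd
    intro w
    have h3 : w ∈ LinearMap.ker (N ^ (n + 1)) ⊔ LinearMap.range (N ^ (n + 1)) := by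
      rw [hcompl.sup_eq_top]
      trivial
    obtain ⟨w1, hw1, w2, ⟨w3, rfl⟩, rfl⟩ := Submodule.mem_sup.1 h3
    rw [LinearMap.mem_ker] at hw1
    have h4 : a ((N ^ (m - 1)) u) ((N ^ (n + 1)) w3) = 0 := by
      rw [← hadj, hadd, add_comm, ← hadd, hu, map_zero, map_zero, LinearMap.zero_apply]
    have h5 : a ((N ^ (m - 1)) u) w1 = 0 := by
      have e1 := hcon (u + w1) (by rw [map_add, hu, hw1, add_zero])
      have e2 := hcon u hu
      have e3 := hcon w1 hw1
      have e4 : a ((N ^ (m - 1)) w1) u = a ((N ^ (m - 1)) u) w1 := by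
        rw [hadj, ha]
      simp only [map_add, LinearMap.add_apply] at e1
      have e5 : 2 * a ((N ^ (m - 1)) u) w1 = 0 := by
        linear_combination e1 - e2 - e3 - e4
      exact (mul_eq_zero.1 e5).resolve_left h2
    rw [map_add, h5, h4, add_zero]
  -- corrections
  have hcorr : ∀ r : ℕ, ∃ v, (N ^ m) v = 0 ∧ a ((N ^ (m - 1)) v) v ≠ 0 ∧
      ∀ i, 1 ≤ i → i ≤ r → i ≤ m - 1 → a ((N ^ (m - 1 - i)) v) v = 0 := by
    intro r
    induction r with
    | zero => exact ⟨v1, hm v1 hv1, hv1', fun i h h' => by omega⟩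
    | succ r ih =>
      obtain ⟨v, hv, hv', hvi⟩ := ih
      have hz : ∀ j, m ≤ j → (N ^ j) v = 0 := by
        intro j hj
        obtain ⟨j', rfl⟩ := Nat.exists_eq_add_of_le hj
        rw [add_comm, ← hadd, hv, map_zero]
      by_cases hr : r + 1 ≤ m - 1
      · set c := a ((N ^ (m - 1)) v) v with hc
        set β : k := -(a ((N ^ (m - 1 - (r + 1))) v) v) / (2 * c) with hβ
        refine ⟨v + β • (N ^ (r + 1)) v, ?_, ?_, ?_⟩
        · rw [map_add, map_smul, hadd, hv, hz _ (by omega), smul_zero, add_zero]
        all_goals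
          have key : ∀ j, a ((N ^ j) (v + β • (N ^ (r + 1)) v)) (v + β • (N ^ (r + 1)) v) =
              a ((N ^ j) v) v + 2 * β * a ((N ^ (j + (r + 1))) v) v +
                β * β * a ((N ^ (j + (r + 1) + (r + 1))) v) v := by
            intro j
            have e1 : a ((N ^ j) v) ((N ^ (r + 1)) v) = a ((N ^ (j + (r + 1))) v) v := by
              rw [← hadj, hadd, add_comm]
            have e2 : a ((N ^ (j + (r + 1))) v) ((N ^ (r + 1)) v) =
                a ((N ^ (j + (r + 1) + (r + 1))) v) v := by
              rw [← hadj, hadd, add_comm]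
            simp only [map_add, map_smul, LinearMap.add_apply, LinearMap.smul_apply, smul_eq_mul,
              hadd, e1, e2]
            ring
        · rw [key, hz _ (show m ≤ m - 1 + (r + 1) by omega),
            hz _ (show m ≤ m - 1 + (r + 1) + (r + 1) by omega)]
          simpa using hv'
        · intro i hi1 hi2 hi3
          rw [key]
          by_cases hir : i = r + 1
          · subst hir
            rw [hz _ (show m ≤ m - 1 - (r + 1) + (r + 1) + (r + 1) by omega),
              show m - 1 - (r + 1) + (r + 1) = m - 1 by omega, ← hc, hβ]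
            rw [map_zero, LinearMap.zero_apply, mul_zero, add_zero]
            field_simp
            ring
          · rw [hz _ (show m ≤ m - 1 - i + (r + 1) by omega),
              hz _ (show m ≤ m - 1 - i + (r + 1) + (r + 1) by omega),
              hvi i hi1 (by omega) hi3]
            simp
      · exact ⟨v, hv, hv', fun i hi1 hi2 hi3 => hvi i hi1 (by omega) hi3⟩
  obtain ⟨v, hv, hv', hvi⟩ := hcorr (m - 1)
  set c := a ((N ^ (m - 1)) v) v with hc
  have hval : ∀ j, j ≠ m - 1 → a ((N ^ j) v) v = 0 := by
    intro j hj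
    rcases lt_or_ge j m with h | h
    · have h3 := hvi (m - 1 - j) (by omega) (by omega) (by omega)
      rwa [show m - 1 - (m - 1 - j) = j by omega] at h3
    · obtain ⟨j', rfl⟩ := Nat.exists_eq_add_of_le h
      rw [add_comm, ← hadd, hv, map_zero, map_zero, LinearMap.zero_apply]
  have hval2 : ∀ i j, a ((N ^ i) v) ((N ^ j) v) = a ((N ^ (i + j)) v) v := by
    intro i j
    rw [← hadj, hadd, add_comm]
  have ha2 : ∀ i x, a' ((N ^ i) v) x = a ((N ^ (i + 1)) v) x + lam * a ((N ^ i) v) x := by
    intro i x
    have h3 := hN1 ((N ^ i) v) x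
    rw [← Module.End.mul_apply, ← pow_succ'] at h3
    rw [h3]
    ring
  refine ⟨m, Nat.pos_of_ne_zero hm0, fun i => (N ^ (i : ℕ)) v,
    fun i => c⁻¹ • a ((N ^ (m - 1 - (i : ℕ))) v), ?_, ?_, ?_⟩
  · intro i j
    rw [LinearMap.smul_apply, hval2, smul_eq_mul]
    by_cases hij : i = j
    · rw [if_pos hij, hij, show m - 1 - (j : ℕ) + j = m - 1 by omega, ← hc,
        inv_mul_cancel₀ hv']
    · rw [if_neg hij, hval _ (by
        intro h
        apply hij
        apply Fin.ext
        have := i.2
        have := j.2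
        omega), mul_zero]
  · intro i x hx
    have h3 : ∀ j, a ((N ^ j) v) x = 0 := by
      intro j
      rcases lt_or_ge j m with h | h
      · have h4 := hx ⟨m - 1 - j, by omega⟩
        rw [LinearMap.smul_apply, smul_eq_mul] at h4
        rw [show m - 1 - (m - 1 - j) = j by omega] at h4
        exact (mul_eq_zero.1 h4).resolve_left (inv_ne_zero hv')
      · obtain ⟨j', rfl⟩ := Nat.exists_eq_add_of_le h
        rw [add_comm, ← hadd, hv, map_zero, map_zero, LinearMap.zero_apply]
    refine ⟨h3 _, ?_⟩
    rw [ha2, h3, h3, mul_zero, add_zero]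
  · intro i j h
    by_contra hcon
    push Not at hcon
    have h3 : a ((N ^ (i : ℕ)) v) ((N ^ (j : ℕ)) v) = 0 := by
      rw [hval2]
      exact hval _ (by omega)
    have h4 : a ((N ^ ((i : ℕ) + 1)) v) ((N ^ (j : ℕ)) v) = 0 := by
      rw [hval2]
      exact hval _ (by omega)
    rcases h with h | h
    · exact h h3
    · apply h
      rw [ha2, h3, h4, mul_zero, add_zero]

end jordan

end Pool.Agent.KS6_21.Q
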