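import Pool.Agent.KS6_21.Q.Lattice

/-!
Systems of linear relations between monomials with exponents which are affinely independent
modulo `p`.
-/

set_option autoImplicit false
set_option linter.unusedVariables false
set_option linter.unusedSectionVars false

universe u

open Pool.Agent.W558 Pool.Agent.KS6_21.P1 Pool.Agent.TH214.SD Pool.Agent.N102.FL

namespace Pool.Agent.KS6_21.Q

/-- Products and roots, with arbitrary finite index types. -/
theorem md_sat' {p : ℕ} {k K : Type u} [Field k] [Field K] [Algebra k K] {P : Set K} {ι : Type}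
    {f : ι → K} (h : Md p k P f) {Q : Set K}
    (hQ : ∀ z ∈ Q, z ≠ 0 → ∃ (n : ℕ), n ≠ 0 ∧ ∃ (c : k) (A : Type) (_ : Fintype A) (a : A → K)
      (e : A → ℤ), (∀ i, a i ∈ P) ∧ z ^ n = algebraMap k K c * ∏ i, a i ^ e i) : Md p k Q f := by
  refine md_sat h fun z hz hz0 => ?_
  obtain ⟨n, hn, c, A, _, a, e, ha, he⟩ := hQ z hz hz0
  refine ⟨n, hn, c, Fintype.card A, fun i => a ((Fintype.equivFin A).symm i),
    fun i => e ((Fintype.equivFin A).symm i), fun i => ha _, ?_⟩
  rw [he]
  congr 1
  exact (Equiv.prod_comp (Fintype.equivFin A).symm fun i => a i ^ e i).symm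

section main

variable (p : ℕ) [Fact p.Prime] {k L K : Type u} [Field k] [PerfectField k] [CharP k p] [Field L]
  [Field K] [Algebra k L] [Algebra L K] [Algebra k K] [IsScalarTower k L K] {P : Set L}
  {ι0 : Type} {f : ι0 → L}

/-- Linear relations and free variables. -/
theorem md_linear (hP : Md p k P f) {A B : Type} [Fintype A] [Fintype B] (z : A → K) (x : B → K)
    (hz : ∀ i, z i ≠ 0) (hx : ∀ j, x j ≠ 0)
    (hgen : IntermediateField.adjoin L (Set.range z ∪ Set.range x) = ⊤)
    (hdim : ((Fintype.card B + Module.finrank k (Submodule.span k (insert (1 : K) (Set.range z))) :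
      ℕ) : Cardinal.{u}) ≤ Algebra.trdeg L K + 1) :
    Md p k (algebraMap L K '' P ∪ (Set.range x ∪
      {g | g ∈ Submodule.span k (insert (1 : K) (Set.range z))}))
      (fun i => algebraMap L K (f i)) := by
  classical
  let εA := Fintype.equivFin A
  let εB := Fintype.equivFin B
  have hrz : Set.range (fun i => z (εA.symm i)) = Set.range z :=
    εA.symm.surjective.range_comp z
  have hrx : Set.range (fun i => x (εB.symm i)) = Set.range x :=
    εB.symm.surjective.range_comp x
  have hB : IsLeveledSystemOver (k := k) (E := L) (K := K) p 0 (fun b : Fin 0 => (b.elim0 : L))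
      (fun _ => 0) (fun i => z (εA.symm i)) (fun i => x (εB.symm i))
      (fun b : Fin 0 => (b.elim0 : (Fin (0 + Fintype.card A) ⊕ Fin (Fintype.card B) → ℤ) →₀ k)) := by
    refine ⟨⟨fun b => b.elim0, fun t => hz _, fun j => hx _⟩, fun i => i.elim0, ?_, ?_, ?_⟩
    · intro l w _ _
      exact Nat.zero_le _
    · have e1 : (Set.range fun t : Fin (Fintype.card A) => z (εA.symm t) ^ p ^ 0) = Set.range z := by
        rw [← hrz]
        simp
      rw [e1]
      simpa using hdim
    · rw [hrz, hrx]
      exact hgen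
  have h1 := md_system (F := fun b : Fin 0 => (b.elim0 :
    (Fin (0 + Fintype.card A) ⊕ Fin (Fintype.card B) → ℤ) →₀ k)) hP (fun b => b.elim0) hB
    (fun l w _ _ t => t.elim0)
  have h2 := h1.comp' (f' := fun i => algebraMap L K (f i)) Sum.inl Sum.inl_injective
    (fun i => rfl)
  refine h2.mono ?_
  rintro w (hw | hw | hw)
  · exact Or.inl hw
  · rw [hrx]
    exact Or.inr (Or.inl hw)
  · refine Or.inr (Or.inr ⟨0, ?_⟩)
    have e2 : {w : K | ∃ t : Fin (Fintype.card A), 0 ≤ 0 ∧ w = z (εA.symm t) ^ p ^ (0 - 0)} =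
        Set.range z := by
      rw [← hrz]
      ext w
      constructor
      · rintro ⟨t, -, rfl⟩
        exact ⟨t, by simp⟩
      · rintro ⟨t, rfl⟩
        exact ⟨t, le_rfl, by simp⟩
    show w ∈ Submodule.span k (insert (1 : K) {w : K | ∃ t : Fin (Fintype.card A), 0 ≤ 0 ∧
      w = z (εA.symm t) ^ p ^ (0 - 0)})
    rw [e2]
    exact hw

/-- **Monomials with linear relations.** -/
theorem md_monomials (hP : Md p k P f) {J I : Type} [Fintype J] [DecidableEq J] [Fintype I]
    [Nonempty I] (y : J → K) (hy : ∀ j, y j ≠ 0)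
    (hgen : IntermediateField.adjoin L (Set.range y) = ⊤) (T : I → J → ℤ)
    (hT : ∀ c : I → ZMod p, ∑ i, c i = 0 → (∀ j, ∑ i, c i * ((T i j : ℤ) : ZMod p) = 0) → c = 0)
    (hdim : ((Fintype.card J + Module.finrank k (Submodule.span k
      (Set.range fun i => mono y (T i))) : ℕ) : Cardinal.{u}) ≤
        Algebra.trdeg L K + (Fintype.card I : ℕ)) :
    Md p k (algebraMap L K '' P ∪ (Set.range y ∪
      {g | g ∈ Submodule.span k (Set.range fun i => mono y (T i))}))
      (fun i => algebraMap L K (f i)) := by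
  classical
  obtain ⟨i0⟩ := ‹Nonempty I›
  let D : {i : I // i ≠ i0} → J → ℤ := fun i => T i - T i0
  have hsplit : ∀ F : I → ZMod p, ∑ i, F i = F i0 + ∑ i : {i : I // i ≠ i0}, F i := by
    intro F
    rw [← Finset.add_sum_erase Finset.univ F (Finset.mem_univ i0)]
    congr 1
    exact Finset.sum_subtype _ (by simp) F
  have hD : LinearIndependent (ZMod p) fun i j => ((D i j : ℤ) : ZMod p) := by
    rw [Fintype.linearIndependent_iff]
    intro g hg
    let c : I → ZMod p := fun i => if h : i ≠ i0 then g ⟨i, h⟩ else - ∑ i', g i'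
    have hc1 : ∀ i : {i : I // i ≠ i0}, c i = g i := fun i => by
      simp only [c]
      rw [dif_pos i.2]
    have hc0 : c i0 = - ∑ i', g i' := by
      simp only [c]
      rw [dif_neg (by simp)]
    have h1 := hT c (by
      rw [hsplit, hc0, Finset.sum_congr rfl fun i _ => hc1 i]
      ring) (by
      intro j
      have h2 := congrFun hg j
      rw [Finset.sum_apply, Pi.zero_apply] at h2
      have h3 : ∑ i : {i : I // i ≠ i0}, c i * ((T i j : ℤ) : ZMod p) =
          ∑ i : {i : I // i ≠ i0}, g i * ((T i j : ℤ) : ZMod p) :=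
        Finset.sum_congr rfl fun i _ => by rw [hc1 i]
      rw [hsplit, hc0, h3, neg_mul, Finset.sum_mul, neg_add_eq_sub, ← Finset.sum_sub_distrib, ← h2]
      refine Finset.sum_congr rfl fun i _ => ?_
      simp only [D, Pi.smul_apply, smul_eq_mul, Pi.sub_apply, Int.cast_sub]
      ring)
    intro i
    rw [← hc1, h1]
    rfl
  obtain ⟨S, hcard, δ, hδ, hbas⟩ := exists_index p D hD
  choose a b hab using hbas
  have hτ0 : ∀ i, mono y (T i) ≠ 0 := fun i => mono_ne hy _
  have hzτ : ∀ i : {i : I // i ≠ i0}, mono y (D i) = mono y (T i) / mono y (T i0) :=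
    fun i => mono_sub hy _ _
  have hδ0 : δ ≠ 0 := by
    rintro rfl
    exact hδ (dvd_zero _)
  have hpow0 : ∀ j, y j ^ δ = (∏ i, mono y (D i) ^ a j i) * ∏ s : S, y (s : J) ^ b j s := by
    intro j
    have h2 := congrArg (mono y) (hab j)
    rw [mono_single, zpow_natCast, mono_add hy, mono_zsum hy, mono_zsum hy] at h2
    rw [h2]
    congr 1
    refine Finset.prod_congr rfl fun s _ => ?_
    rw [mono_single, zpow_one]
  obtain ⟨K₁, hK₁⟩ : ∃ K₁ : IntermediateField L K, K₁ = IntermediateField.adjoin L
    (Set.range (fun i : {i : I // i ≠ i0} => mono y (D i)) ∪ Set.range (fun s : S => y s)) :=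
    ⟨_, rfl⟩
  have hmz : ∀ i, mono y (D i) ∈ K₁ := fun i => by
    rw [hK₁]
    exact IntermediateField.subset_adjoin L _ (Or.inl ⟨i, rfl⟩)
  have hmx : ∀ s : S, y s ∈ K₁ := fun s => by
    rw [hK₁]
    exact IntermediateField.subset_adjoin L _ (Or.inr ⟨s, rfl⟩)
  let z0 : {i : I // i ≠ i0} → K₁ := fun i => ⟨mono y (D i), hmz i⟩
  let x0 : S → K₁ := fun s => ⟨y s, hmx s⟩
  have hz0 : ∀ i, algebraMap K₁ K (z0 i) = mono y (D i) := fun i => rfl
  have hx0 : ∀ s, algebraMap K₁ K (x0 s) = y s := fun i => rfl
  have hgenK₁ : IntermediateField.adjoin L (Set.range z0 ∪ Set.range x0) = ⊤ := by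
    apply IntermediateField.lift_injective
    rw [IntermediateField.lift_adjoin, IntermediateField.lift_top, Set.image_union,
      ← Set.range_comp, ← Set.range_comp]
    exact hK₁.symm
  -- the radicals
  have hpow : ∀ j, y j ^ δ = algebraMap K₁ K ((∏ i, z0 i ^ a j i) * ∏ s, x0 s ^ b j s) := by
    intro j
    rw [hpow0, map_mul, map_prod, map_prod]
    refine congrArg₂ (· * ·) (Finset.prod_congr rfl fun i _ => ?_)
      (Finset.prod_congr rfl fun s _ => ?_)
    · rw [map_zpow₀, hz0]
    · rw [map_zpow₀, hx0]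
  have hgen1 : IntermediateField.adjoin K₁ (Set.range y) = ⊤ := by
    rw [eq_top_iff]
    intro w _
    have h1 : w ∈ IntermediateField.adjoin L (Set.range y) := by
      rw [hgen]
      trivial
    have h2 : IntermediateField.adjoin L (Set.range y) ≤
        (IntermediateField.adjoin K₁ (Set.range y)).restrictScalars L := by
      rw [IntermediateField.adjoin_le_iff]
      intro w hw
      exact IntermediateField.subset_adjoin K₁ _ hw
    exact h2 h1
  have halg : Algebra.IsAlgebraic K₁ K := by
    have h1 : ∀ w ∈ Set.range y, IsIntegral K₁ w := by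
      rintro _ ⟨j, rfl⟩
      refine IsIntegral.of_pow (Nat.pos_of_ne_zero hδ0) ?_
      rw [hpow]
      exact isIntegral_algebraMap
    have h2 := IntermediateField.isAlgebraic_adjoin h1
    rw [hgen1] at h2
    exact (IntermediateField.topEquiv (F := K₁) (E := K)).isAlgebraic_iff.1 h2
  -- the dimension
  have htr : Algebra.trdeg L K₁ = Algebra.trdeg L K := by
    have h3 := trdeg_add_eq L K₁ (A := K)
    rw [trdeg_eq_zero (R := K₁) (A := K), add_zero] at h3
    exact h3
  have hsc : IsScalarTower k K₁ K := IsScalarTower.of_algebraMap_eq fun c => rfl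
  have hfin : Module.finrank k (Submodule.span k (insert (1 : K₁) (Set.range z0))) ≤
      Module.finrank k (Submodule.span k (Set.range fun i => mono y (T i))) := by
    let g : K₁ →ₗ[k] K := (LinearMap.mulLeft k (mono y (T i0))) ∘ₗ
      (IsScalarTower.toAlgHom k K₁ K).toLinearMap
    have hg : ∀ w, g w = mono y (T i0) * algebraMap K₁ K w := fun w => rfl
    have hginj : Function.Injective g := by
      intro w w' h
      rw [hg, hg] at h
      exact (algebraMap K₁ K).injective (mul_left_cancel₀ (hτ0 i0) h)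
    have h4 : (Submodule.span k (insert (1 : K₁) (Set.range z0))).map g ≤
        Submodule.span k (Set.range fun i => mono y (T i)) := by
      rw [Submodule.map_span, Submodule.span_le]
      rintro _ ⟨w, (rfl | ⟨i, rfl⟩), rfl⟩
      · rw [hg, map_one, mul_one]
        exact Submodule.subset_span ⟨i0, rfl⟩
      · rw [hg, hz0, hzτ, mul_div_cancel₀ _ (hτ0 i0)]
        exact Submodule.subset_span ⟨i, rfl⟩
    have hfd : Module.Finite k (Submodule.span k (Set.range fun i => mono y (T i))) :=
      FiniteDimensional.span_of_finite k (Set.finite_range _)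
    have h5 := Submodule.finrank_mono h4
    rwa [← (Submodule.equivMapOfInjective g hginj _).finrank_eq] at h5
  have hcardI : Fintype.card I = Fintype.card {i : I // i ≠ i0} + 1 := by
    have h6 := Fintype.card_subtype_compl (fun i => i = i0)
    rw [Fintype.card_subtype_eq] at h6
    have h7 : 0 < Fintype.card I := Fintype.card_pos_iff.2 ⟨i0⟩
    have h8 : Fintype.card {i : I // i ≠ i0} = Fintype.card {i : I // ¬ i = i0} := rfl
    omega
  have hdim1 : ((Fintype.card S + Module.finrank k (Submodule.span k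
      (insert (1 : K₁) (Set.range z0))) : ℕ) : Cardinal.{u}) ≤ Algebra.trdeg L K₁ + 1 := by
    rw [htr]
    have h6 : ((Fintype.card S + Module.finrank k (Submodule.span k
      (insert (1 : K₁) (Set.range z0))) : ℕ) : Cardinal.{u}) +
        (Fintype.card {i : I // i ≠ i0} : ℕ) ≤
          Algebra.trdeg L K + 1 + (Fintype.card {i : I // i ≠ i0} : ℕ) := by
      refine le_trans ?_ (hdim.trans ?_)
      · rw [← Nat.cast_add, Nat.cast_le, hcard, Fintype.card_coe]
        omega
      · rw [hcardI, Nat.cast_add, Nat.cast_one, add_assoc, add_comm (1 : Cardinal.{u})]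
    exact (Cardinal.add_nat_le_add_nat_iff _).1 h6
  have hMd1 := md_linear p hP z0 x0 (fun i h => by
    have h9 := congrArg (algebraMap K₁ K) h
    rw [hz0, map_zero] at h9
    exact mono_ne hy _ h9) (fun i h => by
    have h9 := congrArg (algebraMap K₁ K) h
    rw [hx0, map_zero] at h9
    exact hy _ h9) hgenK₁ hdim1
  set P1 : Set K₁ := algebraMap L K₁ '' P ∪ (Set.range x0 ∪
      {g | g ∈ Submodule.span k (insert (1 : K₁) (Set.range z0))}) with hP1
  -- saturation
  have hMd2 : Md p k {w : K₁ | w ∈ P1 ∨ ∃ j, w = (∏ i, z0 i ^ a j i) * ∏ s, x0 s ^ b j s}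
      (fun i => algebraMap L K₁ (f i)) := by
    refine md_sat' hMd1 ?_
    rintro w (hw | ⟨j, rfl⟩) hw0
    · exact ⟨1, one_ne_zero, 1, Unit, inferInstance, fun _ => w, fun _ => 1, fun _ => hw, by simp⟩
    · refine ⟨1, one_ne_zero, 1, {i : I // i ≠ i0} ⊕ S, inferInstance, Sum.elim z0 x0,
        Sum.elim (a j) (b j), ?_, ?_⟩
      · rintro (i | s)
        · exact Or.inr (Or.inr (Submodule.subset_span (Or.inr ⟨i, rfl⟩)))
        · exact Or.inr (Or.inl ⟨s, rfl⟩)
      · rw [pow_one, map_one, one_mul, Fintype.prod_sum_type]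
        rfl
  let εJ := Fintype.equivFin J
  have hry : Set.range (fun i => y (εJ.symm i)) = Set.range y := εJ.symm.surjective.range_comp y
  have hMd3 := md_rad p hMd2 (fun i => y (εJ.symm i)) (fun i => hy _) (fun _ => δ) (fun _ => hδ)
    (fun i => ⟨_, Or.inr ⟨εJ.symm i, rfl⟩, hpow _⟩) (by
      rw [hry]
      exact hgen1)
  rw [hry] at hMd3
  have hMd4 : Md p k (algebraMap L K '' P ∪ (Set.range y ∪
      {g | g ∈ Submodule.span k (Set.range fun i => mono y (T i))}))
      (fun i => algebraMap K₁ K (algebraMap L K₁ (f i))) := by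
    refine md_sat' hMd3 ?_
    rintro w (⟨w, hw, rfl⟩ | ⟨j, rfl⟩ | hw) hw0
    · refine ⟨1, one_ne_zero, 1, Unit, inferInstance, fun _ => algebraMap L K w, fun _ => 1,
        fun _ => Or.inl ⟨algebraMap L K₁ w, Or.inl (Or.inl ⟨w, hw, rfl⟩), ?_⟩, by simp⟩
      exact (IsScalarTower.algebraMap_apply L K₁ K w).symm
    · exact ⟨1, one_ne_zero, 1, Unit, inferInstance, fun _ => y j, fun _ => 1,
        fun _ => Or.inr ⟨j, rfl⟩, by simp⟩
    · -- linear combinations of the monomials
      have h10 : w / mono y (T i0) ∈ (Submodule.span k (insert (1 : K₁) (Set.range z0))).map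
          (IsScalarTower.toAlgHom k K₁ K).toLinearMap := by
        have hw' : w ∈ Submodule.span k (Set.range fun i => mono y (T i)) := hw
        clear hw hw0
        induction hw' using Submodule.span_induction with
        | mem w hw =>
          obtain ⟨i, rfl⟩ := hw
          by_cases hi : i = i0
          · subst hi
            simp only
            rw [div_self (hτ0 i)]
            exact ⟨1, Submodule.subset_span (Or.inl rfl), map_one (IsScalarTower.toAlgHom k K₁ K)⟩
          · exact ⟨z0 ⟨i, hi⟩, Submodule.subset_span (Or.inr ⟨_, rfl⟩), hzτ ⟨i, hi⟩⟩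
        | zero =>
          rw [zero_div]
          exact zero_mem _
        | add u v _ _ hu hv =>
          rw [add_div]
          exact add_mem hu hv
        | smul c u _ hu =>
          rw [smul_div_assoc]
          exact Submodule.smul_mem _ c hu
      obtain ⟨w1, hw1, hw2⟩ := h10
      refine ⟨1, one_ne_zero, 1, Unit ⊕ J, inferInstance,
        Sum.elim (fun _ => algebraMap K₁ K w1) y, Sum.elim (fun _ => 1) (T i0), ?_, ?_⟩
      · rintro (_ | j)
        · exact Or.inl ⟨w1, Or.inl (Or.inr (Or.inr hw1)), rfl⟩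
        · exact Or.inr ⟨j, rfl⟩
      · rw [pow_one, map_one, one_mul, Fintype.prod_sum_type]
        have h11 : algebraMap K₁ K w1 = w / mono y (T i0) := hw2
        simp only [Sum.elim_inl, Sum.elim_inr, Finset.univ_unique, Finset.prod_singleton,
          zpow_one, h11]
        have h12 : ∏ j, y j ^ T i0 j = mono y (T i0) := rfl
        rw [h12, div_mul_cancel₀ _ (hτ0 i0)]
  have h13 : (fun i => algebraMap K₁ K (algebraMap L K₁ (f i))) = fun i => algebraMap L K (f i) :=
    funext fun i => (IsScalarTower.algebraMap_apply L K₁ K _).symm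
  rw [h13] at hMd4
  exact hMd4

end main

end Pool.Agent.KS6_21.Q
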